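import Mathlib

set_option autoImplicit false

namespace Pool.Agent.Helper777.ZFlow

open Finset

/-- A weighted sufficient condition for a perfect matching, derived from the theorem of Tutte. -/
theorem exists_perfect {T : Type*} [Fintype T] [DecidableEq T] (Γ : SimpleGraph T) (N : ℕ)
    (z : T → T → ℕ) (hz : ∀ a b, z a b ≠ 0 → Γ.Adj a b) (hdeg : ∀ u, ∑ a, z a u ≤ N)
    (w : T → ℕ) (H : Finset T) (hH : ∀ a ∈ H, ∀ b ∈ H, a ≠ b → Γ.Adj a b)
    (hodd : ∀ C : Finset T, Odd C.card → Disjoint C H →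
      N ≤ ∑ a ∈ C, ∑ u ∈ Cᶜ, z a u + ∑ a ∈ C, w a)
    (hw : ∑ a, w a + (if H.Nonempty then N else 0) < 2 * N)
    (heven : Even (Fintype.card T)) : ∃ M : Γ.Subgraph, M.IsPerfectMatching := by
  classical
  rw [SimpleGraph.tutte]
  intro U hU
  unfold SimpleGraph.IsTutteViolator at hU
  set K := ((⊤ : Γ.Subgraph).deleteVerts U) with hK
  have hverts : ∀ x : T, x ∈ K.verts ↔ x ∉ U := by
    intro x; simp [hK]
  -- the finset of odd components
  have hfin : Finite K.verts := inferInstance
  have : Fintype K.coe.ConnectedComponent := Fintype.ofFinite _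
  set 𝒞 : Finset K.coe.ConnectedComponent := K.coe.oddComponents.toFinite.toFinset with h𝒞
  have hcard : 𝒞.card = K.coe.oddComponents.ncard := by
    rw [h𝒞, Set.ncard_eq_toFinset_card _ (K.coe.oddComponents.toFinite)]
  -- vertex sets
  let cs : K.coe.ConnectedComponent → Finset T := fun c =>
    univ.filter (fun x => ∃ h : x ∈ K.verts, K.coe.connectedComponentMk ⟨x, h⟩ = c)
  have hcs_card : ∀ c ∈ 𝒞, Odd (cs c).card := by
    intro c hc
    have h1 : Odd c.supp.ncard := by
      have := (Set.Finite.mem_toFinset _).1 hc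
      exact this
    have h2 : (cs c).card = c.supp.ncard := by
      have : (c.supp).ncard = (Subtype.val '' c.supp).ncard :=
        (Set.ncard_image_of_injective _ Subtype.val_injective).symm
      rw [this, ← Set.ncard_coe_finset]
      congr 1
      ext x
      simp only [cs, coe_filter, mem_univ, true_and, Set.mem_ofPred_eq, Set.mem_image,
        SimpleGraph.ConnectedComponent.mem_supp_iff, Subtype.exists, exists_and_right,
        exists_eq_right]
    rw [h2]; exact h1
  have hcs_U : ∀ c, ∀ x ∈ cs c, x ∉ U := by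
    intro c x hx
    simp only [cs, mem_filter, mem_univ, true_and] at hx
    obtain ⟨h, _⟩ := hx
    exact (hverts x).1 h
  have hcs_disj : ∀ c c', c ≠ c' → Disjoint (cs c) (cs c') := by
    intro c c' hne
    rw [Finset.disjoint_left]
    intro x hx hx'
    simp only [cs, mem_filter, mem_univ, true_and] at hx hx'
    obtain ⟨h, h1⟩ := hx
    obtain ⟨h', h2⟩ := hx'
    exact hne (h1.symm.trans h2)
  have hcs_adj : ∀ c x y, x ∈ cs c → Γ.Adj x y → y ∉ U → y ∈ cs c := by
    intro c x y hx hxy hy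
    simp only [cs, mem_filter, mem_univ, true_and] at hx ⊢
    obtain ⟨h, h1⟩ := hx
    have hy' : y ∈ K.verts := (hverts y).2 hy
    refine ⟨hy', ?_⟩
    rw [← h1, SimpleGraph.ConnectedComponent.eq]
    apply SimpleGraph.Adj.reachable
    simp only [SimpleGraph.Subgraph.coe_adj]
    rw [hK, SimpleGraph.Subgraph.deleteVerts_adj]
    refine ⟨trivial, hy, trivial, (hverts x).1 h, hxy.symm⟩
  -- parity
  have hpar : Even (𝒞.card + U.ncard) := by
    have h1 : Odd 𝒞.card ↔ Odd (Nat.card K.verts) := by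
      rw [hcard]; exact SimpleGraph.odd_ncard_oddComponents _
    have h2 : Nat.card K.verts + U.ncard = Fintype.card T := by
      have : K.verts = Uᶜ := by ext x; simp [hverts]
      rw [this]
      rw [Nat.card_coe_set_eq, add_comm, Set.ncard_add_ncard_compl, Nat.card_eq_fintype_card]
    rw [← h2] at heven
    rcases Nat.even_or_odd 𝒞.card with h | h
    · have : ¬ Odd (Nat.card K.verts) := fun h' => (Nat.not_odd_iff_even.2 h) (h1.2 h')
      rw [Nat.not_odd_iff_even] at this
      rw [Nat.even_add] at heven ⊢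
      tauto
    · have h' := h1.1 h
      rw [Nat.even_add] at heven ⊢
      have h3 : ¬ Even (Nat.card K.verts) := Nat.not_even_iff_odd.2 h'
      have h4 : ¬ Even 𝒞.card := Nat.not_even_iff_odd.2 h
      tauto
  have hge : U.ncard + 2 ≤ 𝒞.card := by
    have : U.ncard < 𝒞.card := by rw [hcard]; exact hU
    rw [Nat.even_iff] at hpar
    omega
  -- cut bound
  set Uf : Finset T := U.toFinite.toFinset with hUf
  have hUfmem : ∀ x, x ∈ Uf ↔ x ∈ U := fun x => Set.Finite.mem_toFinset _
  have hUfcard : Uf.card = U.ncard := by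
    rw [hUf, Set.ncard_eq_toFinset_card _ (U.toFinite)]
  have hcut1 : ∀ c, ∑ a ∈ cs c, ∑ u ∈ (cs c)ᶜ, z a u ≤ ∑ a ∈ cs c, ∑ u ∈ Uf, z a u := by
    intro c
    apply Finset.sum_le_sum
    intro a ha
    have : ∑ u ∈ (cs c)ᶜ, z a u = ∑ u ∈ (cs c)ᶜ.filter (fun u => u ∈ Uf), z a u := by
      rw [Finset.sum_filter]
      apply Finset.sum_congr rfl
      intro u hu
      split_ifs with h
      · rfl
      · by_contra hne
        have hadj := hz a u hne
        have := hcs_adj c a u ha hadj (fun h' => h ((hUfmem u).2 h'))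
        simp at hu
        exact hu this
    rw [this]
    apply Finset.sum_le_sum_of_subset
    intro x hx
    exact (Finset.mem_filter.1 hx).2
  have hpw : (𝒞 : Set K.coe.ConnectedComponent).PairwiseDisjoint cs := by
    intro c _ c' _ hne
    exact hcs_disj c c' hne
  have hcut2 : ∑ c ∈ 𝒞, ∑ a ∈ cs c, ∑ u ∈ Uf, z a u ≤ N * U.ncard := by
    rw [← Finset.sum_biUnion hpw]
    calc ∑ a ∈ 𝒞.biUnion cs, ∑ u ∈ Uf, z a u ≤ ∑ a, ∑ u ∈ Uf, z a u :=
          Finset.sum_le_sum_of_subset (Finset.subset_univ _)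
      _ = ∑ u ∈ Uf, ∑ a, z a u := Finset.sum_comm
      _ ≤ ∑ u ∈ Uf, N := Finset.sum_le_sum (fun u _ => hdeg u)
      _ = N * U.ncard := by rw [Finset.sum_const, hUfcard, smul_eq_mul, mul_comm]
  have hwsum : ∑ c ∈ 𝒞, ∑ a ∈ cs c, w a ≤ ∑ a, w a := by
    rw [← Finset.sum_biUnion hpw]
    exact Finset.sum_le_sum_of_subset (Finset.subset_univ _)
  -- components meeting H
  have hmeet : (𝒞.filter (fun c => ¬ Disjoint (cs c) H)).card ≤ (if H.Nonempty then 1 else 0) := by
    split_ifs with hne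
    · rw [Finset.card_le_one]
      intro c hc c' hc'
      simp only [mem_filter] at hc hc'
      obtain ⟨x, hx, hxH⟩ := Finset.not_disjoint_iff.1 hc.2
      obtain ⟨y, hy, hyH⟩ := Finset.not_disjoint_iff.1 hc'.2
      by_contra hcc
      have hxy : x ≠ y := by
        rintro rfl
        exact (Finset.disjoint_left.1 (hcs_disj c c' hcc)) hx hy
      have := hcs_adj c x y hx (hH x hxH y hyH hxy) (hcs_U c' y hy)
      exact (Finset.disjoint_left.1 (hcs_disj c c' hcc)) this hy
    · rw [Finset.not_nonempty_iff_eq_empty] at hne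
      subst hne
      simp
  have hsplit : 𝒞.card = (𝒞.filter (fun c => Disjoint (cs c) H)).card +
      (𝒞.filter (fun c => ¬ Disjoint (cs c) H)).card :=
    (Finset.card_filter_add_card_filter_not (s := 𝒞) (fun c => Disjoint (cs c) H)).symm
  have hmain : N * (𝒞.filter (fun c => Disjoint (cs c) H)).card ≤ N * U.ncard + ∑ a, w a := by
    calc N * (𝒞.filter (fun c => Disjoint (cs c) H)).card
        = ∑ c ∈ 𝒞.filter (fun c => Disjoint (cs c) H), N := by
          rw [Finset.sum_const, smul_eq_mul, mul_comm]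
      _ ≤ ∑ c ∈ 𝒞.filter (fun c => Disjoint (cs c) H),
          (∑ a ∈ cs c, ∑ u ∈ (cs c)ᶜ, z a u + ∑ a ∈ cs c, w a) := by
          apply Finset.sum_le_sum
          intro c hc
          rw [mem_filter] at hc
          exact hodd (cs c) (hcs_card c hc.1) hc.2
      _ ≤ ∑ c ∈ 𝒞, (∑ a ∈ cs c, ∑ u ∈ (cs c)ᶜ, z a u + ∑ a ∈ cs c, w a) :=
          Finset.sum_le_sum_of_subset (Finset.filter_subset _ _)
      _ = ∑ c ∈ 𝒞, ∑ a ∈ cs c, ∑ u ∈ (cs c)ᶜ, z a u + ∑ c ∈ 𝒞, ∑ a ∈ cs c, w a :=
          Finset.sum_add_distrib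
      _ ≤ N * U.ncard + ∑ a, w a := by
          apply Nat.add_le_add _ hwsum
          exact (Finset.sum_le_sum (fun c _ => hcut1 c)).trans hcut2
  have h5 : N * (U.ncard + 2) ≤ N * 𝒞.card := Nat.mul_le_mul_left N hge
  rw [hsplit, Nat.mul_add] at h5
  have h6 : N * (𝒞.filter (fun c => ¬ Disjoint (cs c) H)).card ≤ (if H.Nonempty then N else 0) := by
    calc N * (𝒞.filter (fun c => ¬ Disjoint (cs c) H)).card
        ≤ N * (if H.Nonempty then 1 else 0) := Nat.mul_le_mul_left N hmeet
      _ = (if H.Nonempty then N else 0) := by split_ifs <;> simp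
  nlinarith [hmain, h5, h6, hw]

end Pool.Agent.Helper777.ZFlow
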