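import Mathlib
import Pool.Agent.Helper777.TDom

set_option autoImplicit false
set_option linter.unusedSectionVars false

namespace Pool.Agent.Helper777.TDom

open Finset

variable {V : Type} [Fintype V] [DecidableEq V] (G : SimpleGraph V) [DecidableRel G.Adj]

/-- Perfect matching on a set. -/
theorem pm_on (hreg : G.IsRegularOfDegree 3) (P : Finset V) (hP : Even P.card)
    (hodd : ∀ C : Finset V, C ⊆ P → Odd C.card → 3 ≤ bd G C)
    (hout : ∑ x ∈ P, ((Pᶜ).filter (fun y => G.Adj x y)).card < 6) :
    ∃ f : V → V, ∀ v ∈ P, f v ∈ P ∧ G.Adj v (f v) ∧ f (f v) = v := by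
  classical
  have hpm : ∃ M : (G.comap (Subtype.val : {v // v ∈ P} → V)).Subgraph, M.IsPerfectMatching := by
    apply Pool.Agent.Helper777.ZFlow.exists_perfect _ 3
      (fun a b => if G.Adj a.1 b.1 then 1 else 0) ?_ ?_
      (fun a => ((Pᶜ).filter (fun y => G.Adj a.1 y)).card) ∅ ?_ ?_ ?_ ?_
    · intro a b h
      by_contra hcon
      apply h
      exact if_neg hcon
    · intro u
      rw [← Finset.card_filter, ← deg3 G hreg u.1]
      rw [← Finset.card_map (Function.Embedding.subtype _)]
      apply Finset.card_le_card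
      intro x hx
      rw [Finset.mem_map] at hx
      obtain ⟨y, hy, rfl⟩ := hx
      simp only [mem_filter, mem_univ, true_and] at hy ⊢
      exact hy.symm
    · intro a ha; simp at ha
    · intro C hC _
      have h1 := hodd (C.map (Function.Embedding.subtype _)) (by
        intro x hx
        rw [Finset.mem_map] at hx
        obtain ⟨y, _, rfl⟩ := hx
        exact y.2) (by rw [Finset.card_map]; exact hC)
      refine le_trans h1 ?_
      unfold bd
      rw [Finset.sum_map, ← Finset.sum_add_distrib]
      apply Finset.sum_le_sum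
      intro a _
      rw [← Finset.card_filter]
      rw [← Finset.card_map (Function.Embedding.subtype _) (s := (Cᶜ).filter (fun b => G.Adj a.1 b.1)),
        ← Finset.card_union_of_disjoint]
      · apply Finset.card_le_card
        intro x hx
        rw [Finset.mem_filter, Finset.mem_compl] at hx
        rw [Finset.mem_union]
        by_cases hxP : x ∈ P
        · left
          rw [Finset.mem_map]
          refine ⟨⟨x, hxP⟩, ?_, rfl⟩
          simp only [mem_filter, mem_compl]
          refine ⟨fun h => hx.1 (Finset.mem_map.2 ⟨⟨x, hxP⟩, h, rfl⟩), hx.2⟩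
        · right
          simp only [mem_filter, mem_compl]
          exact ⟨hxP, hx.2⟩
      · rw [Finset.disjoint_left]
        intro x hx hx'
        rw [Finset.mem_map] at hx
        obtain ⟨y, _, rfl⟩ := hx
        simp only [mem_filter, mem_compl] at hx'
        exact hx'.1 y.2
    · simp only [Finset.not_nonempty_empty, if_false, add_zero]
      rw [← Finset.sum_coe_sort] at hout
      exact hout
    · rw [Fintype.card_coe]; exact hP
  obtain ⟨M, hM⟩ := hpm
  rw [SimpleGraph.Subgraph.isPerfectMatching_iff] at hM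
  choose m hm1 hm2 using hM
  refine ⟨fun v => if h : v ∈ P then (m ⟨v, h⟩).1 else v, ?_⟩
  intro v hv
  have hmadj : M.Adj ⟨v, hv⟩ (m ⟨v, hv⟩) := hm1 ⟨v, hv⟩
  simp only [dif_pos hv]
  refine ⟨(m ⟨v, hv⟩).2, M.adj_sub hmadj, ?_⟩
  rw [dif_pos (m ⟨v, hv⟩).2]
  have := hm2 (m ⟨v, hv⟩) ⟨v, hv⟩ hmadj.symm
  exact congrArg Subtype.val this.symm

/-- The case without sets with exactly one leaving edge. -/
theorem case_pm (hconn : G.Connected) (hreg : G.IsRegularOfDegree 3)
    (h1 : ∀ C : Finset V, bd G C ≠ 1) :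
    ∃ S : Finset V, (∀ v : V, ∃ u ∈ S, G.Adj v u) ∧ 2 * S.card ≤ Fintype.card V ∧
        ∃ D : Finset V, Disjoint D S ∧ ∀ v : V, v ∈ D ∨ ∃ u ∈ D, G.Adj v u := by
  classical
  have hV : Even (univ : Finset V).card := by
    have := bd_parity G hreg univ
    have h0 : bd G univ = 0 := by
      unfold bd
      simp
    rw [h0] at this
    simpa using this
  obtain ⟨f, hf⟩ := pm_on G hreg univ hV (by
    intro C _ hC
    have h2 := bd_parity G hreg C
    have h3 := h1 C
    rw [Nat.even_iff] at h2
    rw [Nat.odd_iff] at hC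
    omega) (by simp)
  have hf1 : ∀ v, G.Adj v (f v) := fun v => (hf v (mem_univ _)).2.1
  have hf2 : ∀ v, f (f v) = v := fun v => (hf v (mem_univ _)).2.2
  have hinj : Function.Injective f := by
    intro a b hab
    rw [← hf2 a, ← hf2 b, hab]
  obtain ⟨y0⟩ := hconn.nonempty
  obtain ⟨r, hr1, hr2⟩ : ∃ r, G.Adj (f y0) r ∧ r ≠ y0 := by
    have h3 := deg3 G hreg (f y0)
    obtain ⟨r, hr, hne⟩ := Finset.exists_mem_ne (by rw [h3]; norm_num : 1 < (univ.filter (fun y => G.Adj (f y0) y)).card) y0
    exact ⟨r, by simpa using hr, hne⟩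
  exact colour_step G hconn hreg f hinj hf1 y0 (f y0) r (f r) rfl (hf2 y0) rfl (hf2 r) hr2.symm hr1

/-- The remaining case. -/
theorem case_bridge (hconn : G.Connected) (hreg : G.IsRegularOfDegree 3)
    (h1 : ∃ C : Finset V, bd G C = 1) :
    ∃ S : Finset V, (∀ v : V, ∃ u ∈ S, G.Adj v u) ∧ 2 * S.card ≤ Fintype.card V ∧
        ∃ D : Finset V, Disjoint D S ∧ ∀ v : V, v ∈ D ∨ ∃ u ∈ D, G.Adj v u := by
  classical
  obtain ⟨C0, hC0⟩ := h1
  obtain ⟨A, hA, hmin⟩ := Finset.exists_min_image (univ.filter (fun C => bd G C = 1)) Finset.card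
    ⟨C0, by simp [hC0]⟩
  simp only [mem_filter, mem_univ, true_and] at hA hmin
  -- the unique edge
  have hab : ∃ a ∈ A, ∃ b, b ∉ A ∧ G.Adj a b ∧ ∀ x ∈ A, ∀ y, y ∉ A → G.Adj x y → x = a ∧ y = b := by
    have hcard : (((A ×ˢ Aᶜ)).filter (fun p => G.Adj p.1 p.2)).card = 1 := by
      rw [← hA]
      unfold bd
      rw [Finset.card_filter, Finset.sum_product]
      apply Finset.sum_congr rfl
      intro x _
      rw [Finset.card_filter]
    rw [Finset.card_eq_one] at hcard
    obtain ⟨⟨a, b⟩, hab⟩ := hcard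
    have hmem : (a, b) ∈ ((A ×ˢ Aᶜ)).filter (fun p => G.Adj p.1 p.2) := by rw [hab]; simp
    simp only [mem_filter, mem_product, mem_compl] at hmem
    refine ⟨a, hmem.1.1, b, hmem.1.2, hmem.2, ?_⟩
    intro x hx y hy hxy
    have : (x, y) ∈ ((A ×ˢ Aᶜ)).filter (fun p => G.Adj p.1 p.2) := by
      simp only [mem_filter, mem_product, mem_compl]
      exact ⟨⟨hx, hy⟩, hxy⟩
    rw [hab, mem_singleton, Prod.mk.injEq] at this
    exact this
  obtain ⟨a, haA, b, hbA, hadjab, huniq⟩ := hab
  have hab' : a ≠ b := G.ne_of_adj hadjab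
  -- matching on A minus a
  obtain ⟨f, hf⟩ := pm_on G hreg (A.erase a) (by
    have h2 := bd_parity G hreg A
    rw [hA] at h2
    rw [Finset.card_erase_of_mem haA]
    have : 0 < A.card := Finset.card_pos.2 ⟨a, haA⟩
    rw [Nat.even_iff] at h2 ⊢
    omega) (by
    intro C hC hCo
    have h2 := bd_parity G hreg C
    have h3 : bd G C ≠ 1 := by
      intro h3
      have h4 := hmin C h3
      have h5 := Finset.card_le_card hC
      rw [Finset.card_erase_of_mem haA] at h5
      have : 0 < A.card := Finset.card_pos.2 ⟨a, haA⟩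
      omega
    rw [Nat.even_iff] at h2
    rw [Nat.odd_iff] at hCo
    omega) (by
    rw [dc]
    have h6 : ∀ y ∈ (A.erase a)ᶜ, y ≠ a → ((A.erase a).filter (fun x => G.Adj y x)).card = 0 := by
      intro y hy hya
      rw [Finset.card_eq_zero, Finset.filter_eq_empty_iff]
      intro x hx hyx
      simp only [mem_compl, mem_erase, not_and] at hy hx
      have hyA : y ∉ A := hy hya
      exact hx.1 (huniq x hx.2 y hyA hyx.symm).1
    rw [Finset.sum_eq_single_of_mem a (by simp) h6]
    have h7 := split3 G hreg (A.erase a) a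
    omega)
  -- Hall on the other side
  set B' : Finset V := (Aᶜ).erase b with hB'
  have hB'mem : ∀ v, v ∈ B' ↔ v ≠ b ∧ v ∉ A := by intro v; simp [hB']
  have hall := (Finset.all_card_le_biUnion_card_iff_exists_injective
    (fun w : {w // w ∈ B'} => (univ.filter (fun y => G.Adj w.1 y)).erase b)).1 (by
    intro C
    set N' := C.biUnion (fun w : {w // w ∈ B'} => (univ.filter (fun y => G.Adj w.1 y)).erase b) with hN'
    set C' : Finset V := C.map (Function.Embedding.subtype _) with hC'
    have hC'mem : ∀ x ∈ C', x ∈ B' := by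
      intro x hx
      rw [hC', Finset.mem_map] at hx
      obtain ⟨y, _, rfl⟩ := hx
      exact y.2
    have hle : ∀ x ∈ C', ((univ : Finset V).filter (fun y => G.Adj x y)).card ≤
        (N'.filter (fun y => G.Adj x y)).card + (({b} : Finset V).filter (fun y => G.Adj x y)).card := by
      intro x hx
      refine le_trans (Finset.card_le_card ?_) (Finset.card_union_le _ _)
      intro y hy
      simp only [mem_filter, mem_univ, true_and] at hy
      rw [Finset.mem_union]
      by_cases hyb : y = b
      · right; simp [hyb, hyb ▸ hy]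
      · left
        rw [Finset.mem_filter]
        refine ⟨?_, hy⟩
        rw [hN', Finset.mem_biUnion]
        rw [hC', Finset.mem_map] at hx
        obtain ⟨w, hw, rfl⟩ := hx
        refine ⟨w, hw, ?_⟩
        rw [Finset.mem_erase]
        exact ⟨hyb, by simpa using hy⟩
    have hsum := Finset.sum_le_sum hle
    rw [Finset.sum_add_distrib, Finset.sum_congr rfl (fun x _ => deg3 G hreg x),
      dc G C' N', dc G C' {b}, Finset.sum_singleton] at hsum
    have hb2 : (C'.filter (fun x => G.Adj b x)).card ≤ 2 := by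
      have h8 := split3 G hreg C' b
      have h9 : 0 < ((C'ᶜ).filter (fun y => G.Adj b y)).card := by
        apply Finset.card_pos.2
        refine ⟨a, ?_⟩
        simp only [mem_filter, mem_compl]
        refine ⟨fun h => ?_, hadjab.symm⟩
        exact ((hB'mem a).1 (hC'mem a h)).2 haA
      omega
    have hN3 : ∑ y ∈ N', (C'.filter (fun x => G.Adj y x)).card ≤ N'.card * 3 := by
      rw [← smul_eq_mul]
      apply Finset.sum_le_card_nsmul
      intro y _
      have := split3 G hreg C' y
      omega
    simp only [sum_const, smul_eq_mul] at hsum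
    have hcc : C'.card = C.card := by rw [hC', Finset.card_map]
    omega)
  obtain ⟨g, hginj, hg⟩ := hall
  have hg' : ∀ w : {w // w ∈ B'}, g w ∈ B' ∧ G.Adj w.1 (g w) := by
    intro w
    have h := hg w
    simp only [mem_erase, mem_filter, mem_univ, true_and] at h
    refine ⟨?_, h.2⟩
    rw [hB'mem]
    refine ⟨h.1, fun hgA => ?_⟩
    have := (huniq (g w) hgA w.1 ((hB'mem _).1 w.2).2 h.2.symm).2
    exact ((hB'mem _).1 w.2).1 this
  let φ : V → V := fun v => if v = a then b else if v = b then a else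
    if h : v ∈ B' then g ⟨v, h⟩ else f v
  have hφa : φ a = b := by simp [φ]
  have hφb : φ b = a := by simp [φ, hab'.symm]
  have hφB : ∀ v (h : v ∈ B'), φ v = g ⟨v, h⟩ := by
    intro v h
    have h' := (hB'mem v).1 h
    have hva : v ≠ a := by rintro rfl; exact h'.2 haA
    simp only [φ, if_neg hva, if_neg h'.1, dif_pos h]
  have hφA : ∀ v ∈ A.erase a, φ v = f v := by
    intro v hv
    rw [Finset.mem_erase] at hv
    have hvb : v ≠ b := by rintro rfl; exact hbA hv.2
    have hvB : v ∉ B' := fun h => ((hB'mem v).1 h).2 hv.2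
    simp only [φ, if_neg hv.1, if_neg hvb, dif_neg hvB]
  have hcases : ∀ v, v = a ∨ v = b ∨ v ∈ A.erase a ∨ v ∈ B' := by
    intro v
    by_cases h : v = a
    · exact Or.inl h
    by_cases h' : v = b
    · exact Or.inr (Or.inl h')
    by_cases h'' : v ∈ A
    · exact Or.inr (Or.inr (Or.inl (Finset.mem_erase.2 ⟨h, h''⟩)))
    · exact Or.inr (Or.inr (Or.inr ((hB'mem v).2 ⟨h', h''⟩)))
  have hφadj : ∀ v, G.Adj v (φ v) := by
    intro v
    rcases hcases v with rfl | rfl | h | h
    · rw [hφa]; exact hadjab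
    · rw [hφb]; exact hadjab.symm
    · rw [hφA v h]; exact (hf v h).2.1
    · rw [hφB v h]; exact (hg' ⟨v, h⟩).2
  have hsurj : Function.Surjective φ := by
    intro v
    rcases hcases v with rfl | rfl | h | h
    · exact ⟨b, hφb⟩
    · exact ⟨a, hφa⟩
    · refine ⟨f v, ?_⟩
      rw [hφA (f v) (hf v h).1]
      exact (hf v h).2.2
    · have hsg : Function.Surjective (fun w : {w // w ∈ B'} => (⟨g w, (hg' w).1⟩ : {w // w ∈ B'})) := by
        apply Finite.surjective_of_injective
        intro x y hxy
        apply hginj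
        exact congrArg Subtype.val hxy
      obtain ⟨w, hw⟩ := hsg ⟨v, h⟩
      refine ⟨w.1, ?_⟩
      rw [hφB w.1 w.2]
      exact congrArg Subtype.val hw
  have hinj : Function.Injective φ := Finite.injective_iff_surjective.2 hsurj
  -- choose r
  obtain ⟨r, hr1, hr2⟩ : ∃ r, G.Adj a r ∧ r ≠ b := by
    have h3 := deg3 G hreg a
    obtain ⟨r, hr, hne⟩ := Finset.exists_mem_ne (by rw [h3]; norm_num : 1 < (univ.filter (fun y => G.Adj a y)).card) b
    exact ⟨r, by simpa using hr, hne⟩
  have hrA : r ∈ A.erase a := by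
    rw [Finset.mem_erase]
    refine ⟨(G.ne_of_adj hr1).symm, ?_⟩
    by_contra h
    exact hr2 (huniq a haA r h hr1).2
  refine colour_step G hconn hreg φ hinj hφadj b a r (f r) hφb hφa (hφA r hrA) ?_ hr2.symm hr1
  rw [hφA (f r) (hf r hrA).1]
  exact (hf r hrA).2.2

end Pool.Agent.Helper777.TDom
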