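import Mathlib

set_option autoImplicit false

namespace Pool.Agent.Helper777.ZFlow

open Finset

/-- A finite set of even size has a balanced signing. -/
theorem balanced {V : Type*} [DecidableEq V] (N : Finset V) (h : Even N.card) :
    ∃ σ : V → ℤ, (∀ u ∈ N, |σ u| = 1) ∧ (∀ u, u ∉ N → σ u = 0) ∧ ∑ u ∈ N, σ u = 0 := by
  obtain ⟨c, hc⟩ := h
  obtain ⟨N1, hN1, hcard⟩ := Finset.exists_subset_card_eq (show c ≤ N.card by omega)
  refine ⟨fun u => if u ∈ N1 then 1 else if u ∈ N then -1 else 0, ?_, ?_, ?_⟩
  · intro u hu
    by_cases h1 : u ∈ N1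
    · simp [h1]
    · simp [h1, hu]
  · intro u hu
    have h1 : u ∉ N1 := fun h => hu (hN1 h)
    simp [h1, hu]
  · have h1 : ∑ u ∈ N, (if u ∈ N1 then (1 : ℤ) else if u ∈ N then -1 else 0) =
        ∑ u ∈ N, (if u ∈ N1 then (1 : ℤ) else -1) := by
      apply Finset.sum_congr rfl
      intro u hu
      by_cases h1 : u ∈ N1
      · simp [h1]
      · simp [h1, hu]
    rw [h1, Finset.sum_ite, Finset.sum_const, Finset.sum_const]
    have h2 : N.filter (fun u => u ∈ N1) = N1 := by
      ext u
      simp only [mem_filter]
      exact ⟨fun h => h.2, fun h => ⟨hN1 h, h⟩⟩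
    have h3 := Finset.card_filter_add_card_filter_not (s := N) (fun u => u ∈ N1)
    rw [h2] at h3
    have h4 : (N.filter (fun u => u ∉ N1)).card = c := by omega
    rw [h2, h4, hcard]
    simp

section
variable {V : Type*} [Fintype V] [DecidableEq V] (G : SimpleGraph V) [DecidableRel G.Adj]

/-- Vertex sets that grow from a single vertex by adding adjacent vertices. -/
inductive Grow : Finset V → Prop
  | single (v : V) : Grow {v}
  | step (W : Finset V) (x w : V) (hW : Grow W) (hx : x ∈ W) (hw : w ∉ W) (h : G.Adj x w) :
      Grow (insert w W)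

theorem single_sign (w : V) (N : Finset V) (hN : N ⊆ G.neighborFinset w) (he : Even N.card) :
    ∃ σ : V → ℤ, (∀ u ∈ N, |σ u| = 1) ∧ (∀ u, u ∉ N → σ u = 0) ∧
      ∑ u ∈ G.neighborFinset w, σ u = 0 := by
  obtain ⟨σ, h1, h2, h3⟩ := balanced N he
  refine ⟨σ, h1, h2, ?_⟩
  rw [← h3]
  symm
  apply Finset.sum_subset hN
  intro u _ hu
  exact h2 u hu

/-- Signed path systems: every even set of leaving darts of a connected vertex set carries a
zero-sum labelling by 0, 1, -1 whose leaving support is exactly the given set. -/
theorem sign_exists (W : Finset V) (hW : Grow G W) : ∀ L : Finset (V × V),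
    (∀ p ∈ L, p.1 ∈ W ∧ p.2 ∉ W ∧ G.Adj p.1 p.2) → Even L.card →
    ∃ y : V → V → ℤ, (∀ v ∈ W, ∀ u ∈ W, G.Adj v u → y v u = y u v ∧ |y v u| ≤ 1) ∧
      (∀ v ∈ W, ∀ u, u ∉ W → G.Adj v u →
        ((v, u) ∈ L → |y v u| = 1) ∧ ((v, u) ∉ L → y v u = 0)) ∧
      (∀ v ∈ W, ∑ u ∈ G.neighborFinset v, y v u = 0) := by
  induction hW with
  | single v =>
    intro L hL he
    set N : Finset V := (G.neighborFinset v).filter (fun u => (v, u) ∈ L) with hN
    have hcard : N.card = L.card := by
      apply Finset.card_bij (fun u _ => (v, u))
      · intro u hu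
        exact (mem_filter.1 hu).2
      · intro u _ u' _ h
        exact (Prod.mk.inj h).2
      · intro p hp
        have h1 := hL p hp
        have h2 : p.1 = v := mem_singleton.1 h1.1
        refine ⟨p.2, ?_, ?_⟩
        · rw [hN, mem_filter, SimpleGraph.mem_neighborFinset]
          refine ⟨h2 ▸ h1.2.2, ?_⟩
          rw [← h2]; exact hp
        · rw [← h2]
    obtain ⟨σ, h1, h2, h3⟩ := single_sign G v N (Finset.filter_subset _ _) (hcard ▸ he)
    refine ⟨fun _ u => σ u, ?_, ?_, ?_⟩
    · intro a ha b hb hab
      rw [mem_singleton] at ha hb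
      subst ha; subst hb
      exact absurd hab (G.irrefl)
    · intro a ha b _ hab
      rw [mem_singleton] at ha
      subst ha
      refine ⟨fun h => h1 b ?_, fun h => h2 b ?_⟩
      · rw [hN, mem_filter, SimpleGraph.mem_neighborFinset]
        exact ⟨hab, h⟩
      · intro hb
        exact h (mem_filter.1 hb).2
    · intro a ha
      rw [mem_singleton] at ha
      subst ha
      exact h3
  | step W x w hW hx hw hxw ih =>
    intro L hL he
    set L1 : Finset (V × V) := L.filter (fun p => p.1 ∈ W) with hL1
    set N : Finset V := (G.neighborFinset w).filter (fun u => (w, u) ∈ L) with hN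
    have hNcard : N.card = (L.filter (fun p => p.1 ∉ W)).card := by
      apply Finset.card_bij (fun u _ => (w, u))
      · intro u hu
        rw [mem_filter]
        exact ⟨(mem_filter.1 hu).2, hw⟩
      · intro u _ u' _ h
        exact (Prod.mk.inj h).2
      · intro p hp
        rw [mem_filter] at hp
        have h1 := hL p hp.1
        have h2 : p.1 = w := by
          rcases mem_insert.1 h1.1 with h | h
          · exact h
          · exact absurd h hp.2
        refine ⟨p.2, ?_, ?_⟩
        · rw [hN, mem_filter, SimpleGraph.mem_neighborFinset]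
          refine ⟨h2 ▸ h1.2.2, ?_⟩
          rw [← h2]; exact hp.1
        · rw [← h2]
    have hcard : L1.card + N.card = L.card := by
      rw [hNcard]
      exact Finset.card_filter_add_card_filter_not (s := L) (fun p => p.1 ∈ W)
    have hLout : ∀ a b, (a, b) ∈ L → b ∉ W ∧ b ≠ w := by
      intro a b h
      have := (hL _ h).2.1
      simp only [mem_insert, not_or] at this
      exact ⟨this.2, this.1⟩
    -- auxiliary sets
    obtain ⟨L1', N', hL1', hN', hmemL, hmemN, heL, heN, hNsub, hboth⟩ :
        ∃ (L1' : Finset (V × V)) (N' : Finset V),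
        (∀ p ∈ L1', p.1 ∈ W ∧ p.2 ∉ W ∧ G.Adj p.1 p.2) ∧
        True ∧
        (∀ a b, b ≠ w → ((a, b) ∈ L1' ↔ (a, b) ∈ L1)) ∧
        (∀ b, b ∉ W → (b ∈ N' ↔ b ∈ N)) ∧
        Even L1'.card ∧ Even N'.card ∧ N' ⊆ G.neighborFinset w ∧
        (∀ b ∈ W, ((b, w) ∈ L1' ↔ b ∈ N')) ∧ True ∧
        (∀ b b', b ∈ W → b' ∈ W → b ∈ N' → b' ∈ N' → b = b') := by
      rcases Nat.even_or_odd L1.card with hev | hod
      · refine ⟨L1, N, ?_, trivial, fun _ _ _ => Iff.rfl, fun _ _ => Iff.rfl, hev, ?_,
          Finset.filter_subset _ _, ?_, trivial, ?_⟩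
        · intro p hp
          rw [hL1, mem_filter] at hp
          exact ⟨hp.2, (hLout p.1 p.2 hp.1).1, (hL p hp.1).2.2⟩
        · rw [← hcard, Nat.even_add] at he
          exact he.1 hev
        · intro b hb
          constructor
          · intro h
            rw [hL1, mem_filter] at h
            exact absurd rfl (hLout b w h.1).2
          · intro h
            rw [hN, mem_filter] at h
            exact absurd hb (hLout w b h.2).1
        · intro b b' hb _ h _
          rw [hN, mem_filter] at h
          exact absurd hb (hLout w b h.2).1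
      · have hxwL : (x, w) ∉ L1 := by
          intro h
          rw [hL1, mem_filter] at h
          exact (hLout x w h.1).2 rfl
        have hxN : x ∉ N := by
          intro h
          rw [hN, mem_filter] at h
          exact (hLout w x h.2).1 hx
        refine ⟨insert (x, w) L1, insert x N, ?_, trivial, ?_, ?_, ?_, ?_, ?_, ?_, trivial, ?_⟩
        · intro p hp
          rcases mem_insert.1 hp with h | hp
          · subst h; exact ⟨hx, hw, hxw⟩
          · rw [hL1, mem_filter] at hp
            exact ⟨hp.2, (hLout p.1 p.2 hp.1).1, (hL p hp.1).2.2⟩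
        · intro a b hb
          rw [mem_insert]
          constructor
          · rintro (h | h)
            · exact absurd (Prod.mk.inj h).2 hb
            · exact h
          · exact Or.inr
        · intro b hb
          rw [mem_insert]
          constructor
          · rintro (h | h)
            · subst h; exact absurd hx hb
            · exact h
          · exact Or.inr
        · rw [card_insert_of_notMem hxwL]
          exact hod.add_one
        · rw [card_insert_of_notMem hxN]
          rw [← hcard, Nat.even_add] at he
          have : ¬ Even N.card := fun h => (Nat.not_even_iff_odd.2 hod) (he.2 h)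
          exact (Nat.not_even_iff_odd.1 this).add_one
        · intro b hb
          rcases mem_insert.1 hb with h | h
          · subst h
            rw [SimpleGraph.mem_neighborFinset]; exact hxw.symm
          · exact (mem_filter.1 h).1
        · intro b hb
          rw [mem_insert, mem_insert]
          constructor
          · rintro (h | h)
            · exact Or.inl (Prod.mk.inj h).1
            · rw [hL1, mem_filter] at h
              exact absurd rfl (hLout b w h.1).2
          · rintro (h | h)
            · subst h; exact Or.inl rfl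
            · rw [hN, mem_filter] at h
              exact absurd hb (hLout w b h.2).1
        · intro b b' hb hb' h h'
          rw [mem_insert] at h h'
          have e1 : b = x := by
            rcases h with h | h
            · exact h
            · rw [hN, mem_filter] at h
              exact absurd hb (hLout w b h.2).1
          have e2 : b' = x := by
            rcases h' with h | h
            · exact h
            · rw [hN, mem_filter] at h
              exact absurd hb' (hLout w b' h.2).1
          rw [e1, e2]
    obtain ⟨y1, hy1, hy2, hy3⟩ := ih L1' hL1' heL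
    obtain ⟨σ, hσ1, hσ2, hσ3⟩ := single_sign G w N' hNsub heN
    -- the sign
    obtain ⟨ε, hε, hεeq⟩ : ∃ ε : ℤ, |ε| = 1 ∧ ∀ b ∈ W, b ∈ N' → ε * σ b = y1 b w := by
      by_cases hex : ∃ b ∈ W, b ∈ N'
      · obtain ⟨b0, hb0, hb0N⟩ := hex
        have hadj : G.Adj b0 w := by
          have := hNsub hb0N
          rw [SimpleGraph.mem_neighborFinset] at this
          exact this.symm
        have e1 : |y1 b0 w| = 1 := (hy2 b0 hb0 w hw hadj).1 ((hboth.1 b0 hb0).2 hb0N)
        have e2 : |σ b0| = 1 := hσ1 b0 hb0N
        refine ⟨y1 b0 w * σ b0, ?_, ?_⟩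
        · rw [abs_mul, e1, e2]; norm_num
        · intro b hb hbN
          have : b = b0 := hboth.2.2 b b0 hb hb0 hbN hb0N
          subst this
          have e3 : σ b * σ b = 1 := by
            rw [← abs_mul_abs_self, e2]; norm_num
          calc y1 b w * σ b * σ b = y1 b w * (σ b * σ b) := by ring
            _ = y1 b w := by rw [e3, mul_one]
      · push Not at hex
        exact ⟨1, by norm_num, fun b hb hbN => absurd hbN (hex b hb)⟩
    have hεσ : ∀ u, |ε * σ u| = |σ u| := by
      intro u; rw [abs_mul, hε, one_mul]
    -- link labels between W and w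
    have hlink : ∀ b ∈ W, G.Adj b w → ε * σ b = y1 b w := by
      intro b hb hbw
      by_cases hbN : b ∈ N'
      · exact hεeq b hb hbN
      · rw [hσ2 b hbN, mul_zero]
        symm
        apply (hy2 b hb w hw hbw).2
        intro h
        exact hbN ((hboth.1 b hb).1 h)
    have hσle : ∀ u, |σ u| ≤ 1 := by
      intro u
      by_cases h : u ∈ N'
      · exact le_of_eq (hσ1 u h)
      · rw [hσ2 u h]; norm_num
    refine ⟨fun v u => if v = w then ε * σ u else y1 v u, ?_, ?_, ?_⟩
    · intro v hv u hu hvu
      rw [mem_insert] at hv hu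
      by_cases hvw : v = w
      · subst hvw
        have huv : u ≠ v := fun h => G.irrefl (h ▸ hvu)
        have huW : u ∈ W := hu.resolve_left huv
        simp only [if_true, if_neg huv]
        refine ⟨hlink u huW hvu.symm, ?_⟩
        rw [hεσ]; exact hσle u
      · have hvW : v ∈ W := hv.resolve_left hvw
        by_cases huw : u = w
        · subst huw
          simp only [if_neg hvw, if_true]
          have := hlink v hvW hvu
          refine ⟨this.symm, ?_⟩
          rw [← this, hεσ]; exact hσle v
        · have huW : u ∈ W := hu.resolve_left huw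
          simp only [if_neg hvw, if_neg huw]
          exact hy1 v hvW u huW hvu
    · intro v hv u hu hvu
      rw [mem_insert] at hv hu
      push Not at hu
      by_cases hvw : v = w
      · subst hvw
        simp only [if_true]
        have hmem : (v, u) ∈ L ↔ u ∈ N' := by
          rw [hmemN u hu.2, hN, mem_filter, SimpleGraph.mem_neighborFinset]
          exact ⟨fun h => ⟨hvu, h⟩, fun h => h.2⟩
        refine ⟨fun h => ?_, fun h => ?_⟩
        · rw [hεσ]; exact hσ1 u (hmem.1 h)
        · rw [hσ2 u (fun h' => h (hmem.2 h')), mul_zero]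
      · have hvW : v ∈ W := hv.resolve_left hvw
        simp only [if_neg hvw]
        have hmem : (v, u) ∈ L ↔ (v, u) ∈ L1' := by
          rw [hmemL v u hu.1, hL1, mem_filter]
          exact ⟨fun h => ⟨h, hvW⟩, fun h => h.1⟩
        rw [hmem]
        exact hy2 v hvW u hu.2 hvu
    · intro v hv
      rw [mem_insert] at hv
      by_cases hvw : v = w
      · subst hvw
        simp only [if_true]
        rw [← Finset.mul_sum, hσ3, mul_zero]
      · have hvW : v ∈ W := hv.resolve_left hvw
        simp only [if_neg hvw]
        exact hy3 v hvW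

/-- Sets with no empty internal cut grow from a vertex. -/
theorem grow_of_cut (W : Finset V) (hne : W.Nonempty)
    (hcut : ∀ S ⊆ W, S.Nonempty → S ≠ W → ∃ x ∈ S, ∃ w ∈ W, w ∉ S ∧ G.Adj x w) : Grow G W := by
  classical
  obtain ⟨v, hv⟩ := hne
  have hex : ∃ S ∈ W.powerset, Grow G S := ⟨{v}, by simpa using hv, Grow.single v⟩
  obtain ⟨S0, hS0, hg0⟩ := hex
  obtain ⟨S, hS, hmax⟩ := Finset.exists_max_image (W.powerset.filter (fun S => Grow G S))
    (fun S => S.card) ⟨S0, mem_filter.2 ⟨hS0, hg0⟩⟩
  rw [mem_filter, mem_powerset] at hS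
  by_cases hSW : S = W
  · rw [← hSW]; exact hS.2
  · exfalso
    have hSne : S.Nonempty := by
      rcases S.eq_empty_or_nonempty with h | h
      · exfalso
        have h1 := hmax {v} (mem_filter.2 ⟨by simpa using hv, Grow.single v⟩)
        rw [h] at h1
        simp at h1
      · exact h
    obtain ⟨x, hx, w, hw, hwS, hxw⟩ := hcut S hS.1 hSne hSW
    have h1 := hmax (insert w S) (mem_filter.2 ⟨by
      rw [mem_powerset]
      intro u hu
      rcases mem_insert.1 hu with h | h
      · rw [h]; exact hw
      · exact hS.1 h, Grow.step S x w hS.2 hx hwS hxw⟩)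
    rw [card_insert_of_notMem hwS] at h1
    omega

end

end Pool.Agent.Helper777.ZFlow
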