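import Mathlib

set_option autoImplicit false

namespace Pool.Agent.Helper777.ZFlow

open Finset

theorem loc_ge (a b r s : ℕ) (ha : a ≤ r) (h0 : 0 < b) (h1 : b < s) :
    r ≤ a * (s - b) + b * (r - a) := by
  obtain ⟨c, rfl⟩ := Nat.exists_eq_add_of_le ha
  obtain ⟨d, rfl⟩ := Nat.exists_eq_add_of_lt h1
  have e1 : b + d + 1 - b = d + 1 := by omega
  have e2 : a + c - a = c := by omega
  rw [e1, e2]
  nlinarith [Nat.zero_le (a * d), Nat.mul_le_mul_right c h0]

section
variable {W D : Type*} [Fintype W] [DecidableEq W] [Fintype D] [DecidableEq D]

/-- The combinatorial heart: small weighted cuts of odd sets in the gadget graph come from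
vertex sets with exactly one crossing dart. -/
theorem core (src : D → W) (rev : D → Option D)
    (hrev : ∀ p q, rev p = some q → rev q = some p)
    (hne : ∀ p q, rev p = some q → src p ≠ src q)
    (r k s : ℕ) (hreg : ∀ v, (univ.filter (fun p => src p = v)).card = r)
    (hk : Even k) (hs : s + k = r) (h3 : r ≤ 3 * s) (hr : 0 < r)
    (star : ∀ S : Finset W, S ≠ univ →
      (univ.filter (fun p => src p ∈ S ∧ ∀ q, rev p = some q → src q ∉ S)).card ≠ 1)
    (P : Finset D) (b : W → ℕ) (hb : ∀ v, b v ≤ s) (hodd : Odd (P.card + ∑ v, b v)) :
    r ≤ ∑ v, ((P.filter (fun p => src p = v)).card * (s - b v) +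
        b v * (r - (P.filter (fun p => src p = v)).card)) +
      k * (P.filter (fun p => ∀ q, rev p = some q → q ∉ P)).card ∨
    ((univ.filter (fun p => rev p = none)).card = 1 ∧ (∀ v, b v = s) ∧
      s ≤ ∑ v, ((P.filter (fun p => src p = v)).card * (s - b v) +
        b v * (r - (P.filter (fun p => src p = v)).card))) := by
  classical
  by_contra hcon
  push Not at hcon
  obtain ⟨hlt, hexc⟩ := hcon
  set a : W → ℕ := fun v => (P.filter (fun p => src p = v)).card with ha
  set loc : W → ℕ := fun v => a v * (s - b v) + b v * (r - a v) with hloc
  have hsum : ∑ v, ((P.filter (fun p => src p = v)).card * (s - b v) +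
        b v * (r - (P.filter (fun p => src p = v)).card)) = ∑ v, loc v := rfl
  rw [hsum] at hlt hexc
  set ext : ℕ := (P.filter (fun p => ∀ q, rev p = some q → q ∉ P)).card with hext
  have har : ∀ v, a v ≤ r := by
    intro v
    rw [← hreg v]
    apply Finset.card_le_card
    intro p hp
    simp only [mem_filter, mem_univ, true_and] at hp ⊢
    exact hp.2
  have hslt : 0 < s := by omega
  have hlocle : ∀ v, loc v ≤ ∑ v, loc v := fun v =>
    Finset.single_le_sum (f := loc) (fun _ _ => Nat.zero_le _) (mem_univ v)
  have hb01 : ∀ v, b v = 0 ∨ b v = s := by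
    intro v
    by_contra h
    push Not at h
    have h1 : 0 < b v := Nat.pos_of_ne_zero h.1
    have h2 : b v < s := lt_of_le_of_ne (hb v) h.2
    have h3 := loc_ge (a v) (b v) r s (har v) h1 h2
    have h4 := hlocle v
    have h5 : loc v = a v * (s - b v) + b v * (r - a v) := rfl
    omega
  -- defects
  set al : W → ℕ := fun v => if b v = 0 then a v else r - a v with hal
  have hlocal : ∀ v, loc v = s * al v := by
    intro v
    rcases hb01 v with h | h
    · simp only [hloc, hal, h, if_true, Nat.sub_zero, Nat.zero_mul, Nat.add_zero]
      ring
    · have h' : b v ≠ 0 := by omega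
      simp only [hloc, hal]
      rw [if_neg h', h]
      simp
  have hlocsum : ∑ v, loc v = s * ∑ v, al v := by
    rw [Finset.mul_sum]
    exact Finset.sum_congr rfl (fun v _ => hlocal v)
  have hal2 : ∑ v, al v ≤ 2 := by
    by_contra h
    push Not at h
    have : s * 3 ≤ s * ∑ v, al v := Nat.mul_le_mul_left s h
    omega
  -- parity
  have hPcard : P.card = ∑ v, a v := by
    rw [ha]
    exact Finset.card_eq_sum_card_fiberwise (fun _ _ => Finset.mem_coe.2 (mem_univ _))
  have hparv : ∀ v, (a v + b v) % 2 = al v % 2 := by
    intro v
    obtain ⟨k', hk'⟩ := hk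
    have h1 := har v
    rcases hb01 v with h | h
    · simp only [hal, h, if_true, Nat.add_zero]
    · have h' : b v ≠ 0 := by omega
      simp only [hal]
      rw [if_neg h']
      omega
  have hpar : (P.card + ∑ v, b v) % 2 = (∑ v, al v) % 2 := by
    rw [hPcard, ← Finset.sum_add_distrib, Finset.sum_nat_mod, Finset.sum_nat_mod (f := al)]
    congr 1
    exact Finset.sum_congr rfl (fun v _ => hparv v)
  have hal1 : ∑ v, al v = 1 := by
    rw [Nat.odd_iff] at hodd
    omega
  have hext0 : ext = 0 := by
    rw [hlocsum, hal1] at hlt
    by_contra h
    have : 1 ≤ ext := Nat.one_le_iff_ne_zero.2 h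
    have : k * 1 ≤ k * ext := Nat.mul_le_mul_left k this
    omega
  have hin : ∀ p ∈ P, ∃ q, rev p = some q ∧ q ∈ P := by
    intro p hp
    rw [hext, Finset.card_eq_zero] at hext0
    by_contra h
    push Not at h
    have : p ∈ P.filter (fun p => ∀ q, rev p = some q → q ∉ P) := by
      rw [mem_filter]; exact ⟨hp, h⟩
    rw [hext0] at this
    simp at this
  -- the special vertex
  obtain ⟨v0, hv0⟩ : ∃ v0, al v0 ≠ 0 := by
    by_contra h
    push Not at h
    rw [Finset.sum_eq_zero (fun v _ => h v)] at hal1
    omega
  have hsplit : al v0 + ∑ v ∈ univ.erase v0, al v = 1 := by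
    rw [Finset.add_sum_erase univ al (mem_univ v0)]; exact hal1
  have hv01 : al v0 = 1 := by omega
  have hother : ∀ v, v ≠ v0 → al v = 0 := by
    intro v hv
    have h1 : ∑ v ∈ univ.erase v0, al v = 0 := by omega
    exact (Finset.sum_eq_zero_iff.1 h1) v (mem_erase.2 ⟨hv, mem_univ _⟩)
  -- full vertices
  have hfull : ∀ v, b v ≠ 0 → al v = 0 → ∀ p, src p = v → p ∈ P := by
    intro v hbv hav p hp
    have h1 : al v = r - a v := by simp only [hal]; rw [if_neg hbv]
    have h2 : a v = r := by have := har v; omega
    have h3 : (P.filter (fun p => src p = v)) = univ.filter (fun p => src p = v) := by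
      apply Finset.eq_of_subset_of_card_le
      · intro q hq
        simp only [mem_filter, mem_univ, true_and] at hq ⊢
        exact hq.2
      · rw [hreg v]; exact le_of_eq h2.symm
    have : p ∈ univ.filter (fun p => src p = v) := by simp [hp]
    rw [← h3, mem_filter] at this
    exact this.1
  have hempty : ∀ v, b v = 0 → al v = 0 → ∀ p, src p = v → p ∉ P := by
    intro v hbv hav p hp hpP
    have h1 : al v = a v := by simp only [hal]; rw [if_pos hbv]
    have h2 : a v = 0 := by omega
    rw [ha] at h2
    simp only [Finset.card_eq_zero] at h2
    have : p ∈ P.filter (fun p => src p = v) := by rw [mem_filter]; exact ⟨hpP, hp⟩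
    rw [h2] at this
    simp at this
  rcases Nat.eq_zero_or_pos (b v0) with hb0 | hb0
  · -- case A : exactly one dart at v0 in P
    have h1 : a v0 = 1 := by
      have : al v0 = a v0 := by simp only [hal]; rw [if_pos hb0]
      omega
    rw [ha] at h1
    simp only at h1
    obtain ⟨p0, hp0⟩ := Finset.card_eq_one.1 h1
    have hp0P : p0 ∈ P ∧ src p0 = v0 := by
      have : p0 ∈ P.filter (fun p => src p = v0) := by rw [hp0]; simp
      rwa [mem_filter] at this
    have huniq : ∀ p ∈ P, src p = v0 → p = p0 := by
      intro p hp hs'
      have : p ∈ P.filter (fun p => src p = v0) := by rw [mem_filter]; exact ⟨hp, hs'⟩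
      rw [hp0] at this
      simpa using this
    obtain ⟨q0, hq0, hq0P⟩ := hin p0 hp0P.1
    have hq0r := hrev p0 q0 hq0
    have hq0ne := hne p0 q0 hq0
    set S : Finset W := univ.filter (fun v => b v ≠ 0) with hS
    have hv0S : v0 ∉ S := by simp [hS, hb0]
    apply star S
    · intro h
      rw [h] at hv0S
      exact hv0S (mem_univ _)
    · rw [Finset.card_eq_one]
      refine ⟨q0, ?_⟩
      ext p
      simp only [mem_filter, mem_univ, true_and, mem_singleton]
      constructor
      · rintro ⟨hpS, hpq⟩
        have hbs : b (src p) ≠ 0 := by simpa [hS] using hpS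
        have hpv0 : src p ≠ v0 := by
          intro h; rw [h] at hbs; exact hbs hb0
        have hpP := hfull (src p) hbs (hother _ hpv0) p rfl
        obtain ⟨q, hq, hqP⟩ := hin p hpP
        have hqS := hpq q hq
        have hbq : b (src q) = 0 := by
          by_contra h
          exact hqS (by simp [hS, h])
        have hqv0 : src q = v0 := by
          by_contra h
          exact hempty (src q) hbq (hother _ h) q rfl hqP
        have hqp0 : q = p0 := huniq q hqP hqv0
        have := hrev p q hq
        rw [hqp0, hq0] at this
        exact (Option.some.inj this).symm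
      · rintro rfl
        have hsq : src p ≠ v0 := by
          intro h; exact hq0ne (hp0P.2.trans h.symm)
        have hbq : b (src p) ≠ 0 := by
          intro h
          exact hempty (src p) h (hother _ hsq) p rfl hq0P
        refine ⟨by simp [hS, hbq], ?_⟩
        intro q hq
        rw [hq0r] at hq
        have : q = p0 := (Option.some.inj hq).symm
        rw [this, hp0P.2]
        exact hv0S
  · -- case B : exactly one dart at v0 missing
    have hbne : b v0 ≠ 0 := by omega
    have h1 : r - a v0 = 1 := by
      have : al v0 = r - a v0 := by simp only [hal]; rw [if_neg hbne]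
      omega
    have hmiss : ((univ.filter (fun p => src p = v0)) \ P).card = 1 := by
      have h2 : (univ.filter (fun p => src p = v0)) \ P =
          (univ.filter (fun p => src p = v0)) \ (P.filter (fun p => src p = v0)) := by
        ext p
        simp only [mem_sdiff, mem_filter, mem_univ, true_and]
        tauto
      rw [h2, Finset.card_sdiff_of_subset, hreg v0]
      · exact h1
      · intro p hp
        simp only [mem_filter, mem_univ, true_and] at hp ⊢
        exact hp.2
    obtain ⟨p0, hp0⟩ := Finset.card_eq_one.1 hmiss
    have hp0P : src p0 = v0 ∧ p0 ∉ P := by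
      have : p0 ∈ (univ.filter (fun p => src p = v0)) \ P := by rw [hp0]; simp
      simpa [mem_sdiff] using this
    have huniq : ∀ p, p ∉ P → src p = v0 → p = p0 := by
      intro p hp hs'
      have : p ∈ (univ.filter (fun p => src p = v0)) \ P := by
        rw [mem_sdiff]; exact ⟨by simp [hs'], hp⟩
      rw [hp0] at this
      simpa using this
    set S : Finset W := univ.filter (fun v => b v ≠ 0) with hS
    have hv0S : v0 ∈ S := by simp [hS, hbne]
    have hp0rev : ∀ q, rev p0 = some q → src q ∉ S := by
      intro q hq hqS
      have hbq : b (src q) ≠ 0 := by simpa [hS] using hqS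
      have hqv0 : src q ≠ v0 := by
        intro h
        exact hne p0 q hq (hp0P.1.trans h.symm)
      have hqP := hfull (src q) hbq (hother _ hqv0) q rfl
      obtain ⟨q', hq', hq'P⟩ := hin q hqP
      have := hrev p0 q hq
      rw [this] at hq'
      have : q' = p0 := (Option.some.inj hq').symm
      rw [this] at hq'P
      exact hp0P.2 hq'P
    have hcross : (univ.filter (fun p => src p ∈ S ∧ ∀ q, rev p = some q → src q ∉ S)).card = 1 := by
      rw [Finset.card_eq_one]
      refine ⟨p0, ?_⟩
      ext p
      simp only [mem_filter, mem_univ, true_and, mem_singleton]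
      constructor
      · rintro ⟨hpS, hpq⟩
        have hbs : b (src p) ≠ 0 := by simpa [hS] using hpS
        by_cases hpP : p ∈ P
        · exfalso
          obtain ⟨q, hq, hqP⟩ := hin p hpP
          have hqS := hpq q hq
          have hbq : b (src q) = 0 := by
            by_contra h
            exact hqS (by simp [hS, h])
          have hqv0 : src q ≠ v0 := by
            intro h; rw [h] at hbq; exact hbne hbq
          exact hempty (src q) hbq (hother _ hqv0) q rfl hqP
        · have hpv0 : src p = v0 := by
            by_contra h
            exact hpP (hfull (src p) hbs (hother _ h) p rfl)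
          exact huniq p hpP hpv0
      · rintro rfl
        exact ⟨by rw [hp0P.1]; exact hv0S, hp0rev⟩
    by_cases hSu : S = univ
    · -- exceptional case
      have hball : ∀ v, b v ≠ 0 := by
        intro v
        have : v ∈ S := by rw [hSu]; exact mem_univ v
        simpa [hS] using this
      have hball' : ∀ v, b v = s := fun v => (hb01 v).resolve_left (hball v)
      have hp0none : rev p0 = none := by
        rcases hh : rev p0 with _ | q
        · rfl
        · exfalso
          have := hp0rev q hh
          rw [hSu] at this
          exact this (mem_univ _)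
      have hleav : (univ.filter (fun p => rev p = none)).card = 1 := by
        rw [Finset.card_eq_one]
        refine ⟨p0, ?_⟩
        ext p
        simp only [mem_filter, mem_univ, true_and, mem_singleton]
        constructor
        · intro hp
          by_cases hpP : p ∈ P
          · obtain ⟨q, hq, _⟩ := hin p hpP
            rw [hp] at hq
            exact absurd hq (by simp)
          · have hpv0 : src p = v0 := by
              by_contra h
              exact hpP (hfull (src p) (hball _) (hother _ h) p rfl)
            exact huniq p hpP hpv0
        · rintro rfl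
          exact hp0none
      have := hexc hleav hball'
      rw [hlocsum, hal1] at this
      omega
    · exact star S hSu hcross

end

end Pool.Agent.Helper777.ZFlow
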