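import Mathlib
import Pool.Agent.Helper777.ZTutte
import Pool.Agent.Helper777.ZCore

set_option autoImplicit false

namespace Pool.Agent.Helper777.ZFlow

open Finset

section
variable {W D : Type*} [Fintype W] [DecidableEq W] [Fintype D] [DecidableEq D]

/-- The gadget graph. -/
def gad (src : D → W) (rev : D → Option D) (H Det : Finset D) (s : ℕ) :
    SimpleGraph (D ⊕ (W × Fin s)) where
  Adj x y := match x, y with
    | .inl p, .inl q => p ≠ q ∧ ((rev p = some q ∧ rev q = some p) ∨ (p ∈ H ∧ q ∈ H))
    | .inl p, .inr v => src p = v.1 ∧ p ∉ Det
    | .inr v, .inl p => src p = v.1 ∧ p ∉ Det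
    | .inr _, .inr _ => False
  symm := ⟨by
    intro x y h
    rcases x with p | v <;> rcases y with q | w
    · refine ⟨h.1.symm, ?_⟩
      rcases h.2 with h' | h'
      · exact Or.inl ⟨h'.2, h'.1⟩
      · exact Or.inr ⟨h'.2, h'.1⟩
    · exact h
    · exact h
    · exact h⟩
  loopless := ⟨by
    intro x h
    rcases x with p | v
    · exact h.1 rfl
    · exact h⟩

/-- Edge weights of the gadget graph. -/
def zw (src : D → W) (rev : D → Option D) (Det : Finset D) (s k : ℕ) :
    (D ⊕ (W × Fin s)) → (D ⊕ (W × Fin s)) → ℕ
  | .inl p, .inl q => if rev p = some q then k else 0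
  | .inl p, .inr v => if src p = v.1 ∧ p ∉ Det then 1 else 0
  | .inr v, .inl p => if src p = v.1 ∧ p ∉ Det then 1 else 0
  | .inr _, .inr _ => 0

/-- Vertex weights of the gadget graph. -/
def vw (src : D → W) (rev : D → Option D) (H Det : Finset D) (s k : ℕ) (x0 : D ⊕ (W × Fin s)) :
    (D ⊕ (W × Fin s)) → ℕ
  | .inl p => if rev p = none ∧ p ∉ H then k else 0
  | .inr v => (Det.filter (fun p => src p = v.1)).card +
      (if (univ.filter (fun p => rev p = none)).card = 1 ∧ Sum.inr v = x0 then k else 0)

theorem card_gad (src : D → W) (r k s : ℕ)
    (hreg : ∀ v, (univ.filter (fun p => src p = v)).card = r)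
    (hk : Even k) (hs : s + k = r) : Even (Fintype.card (D ⊕ (W × Fin s))) := by
  have h1 : Fintype.card D = Fintype.card W * r := by
    have : (univ : Finset D).card = ∑ v, (univ.filter (fun p => src p = v)).card :=
      Finset.card_eq_sum_card_fiberwise (fun _ _ => Finset.mem_coe.2 (mem_univ _))
    rw [← Finset.card_univ, this, Finset.sum_congr rfl (fun v _ => hreg v)]
    simp
  rw [Fintype.card_sum, Fintype.card_prod, Fintype.card_fin, h1, ← Nat.mul_add]
  apply Even.mul_left
  obtain ⟨k', hk'⟩ := hk
  exact ⟨s + k', by omega⟩

/-- Existence of factors: from weights and the core inequality. -/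
theorem exists_factor (src : D → W) (rev : D → Option D)
    (hrev : ∀ p q, rev p = some q → rev q = some p)
    (hne : ∀ p q, rev p = some q → src p ≠ src q)
    (r k s : ℕ) (hreg : ∀ v, (univ.filter (fun p => src p = v)).card = r)
    (hk : Even k) (hs : s + k = r) (h3 : r ≤ 3 * s) (hr : 0 < r)
    (star : ∀ S : Finset W, S ≠ univ →
      (univ.filter (fun p => src p ∈ S ∧ ∀ q, rev p = some q → src q ∉ S)).card ≠ 1)
    (H Det : Finset D) (hH : ∀ p ∈ H, rev p = none) (hDet : Det ⊆ H)
    (hnum : k * (univ.filter (fun p => rev p = none ∧ p ∉ H)).card + s * Det.card +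
      (if (univ.filter (fun p => rev p = none)).card = 1 then k else 0) +
      (if H.Nonempty then r else 0) < 2 * r) :
    ∃ X : Finset D, (∀ v, (X.filter (fun p => src p = v)).card = k) ∧
      (∀ p q, rev p = some q → p ∈ X → q ∈ X) ∧
      (∀ p ∈ X, rev p = none → p ∈ H) ∧ Det ⊆ X := by
  classical
  have hs0 : 0 < s := by omega
  -- a perfect matching
  have hpm : ∃ M : (gad src rev H Det s).Subgraph, M.IsPerfectMatching := by
    rcases isEmpty_or_nonempty (W × Fin s) with hemp | ⟨⟨y0⟩⟩
    · -- no vertices
      have hW : IsEmpty W := by
        by_contra h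
        rw [not_isEmpty_iff] at h
        obtain ⟨w⟩ := h
        exact hemp.false (w, ⟨0, hs0⟩)
      have hD : IsEmpty D := ⟨fun p => hW.false (src p)⟩
      refine ⟨⊤, ?_⟩
      rw [SimpleGraph.Subgraph.isPerfectMatching_iff]
      intro x
      rcases x with p | v
      · exact (hD.false p).elim
      · exact (hemp.false v).elim
    set x0 : D ⊕ (W × Fin s) := Sum.inr y0 with hx0
    refine exists_perfect (gad src rev H Det s) r (zw src rev Det s k) ?_ ?_
      (vw src rev H Det s k x0) (H.image Sum.inl) ?_ ?_ ?_ (card_gad src r k s hreg hk hs)
    · -- support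
      intro x y hxy
      rcases x with p | v <;> rcases y with q | w <;> simp only [zw] at hxy
      · have h1 : rev p = some q := by
          by_contra h; simp [h] at hxy
        refine ⟨?_, Or.inl ⟨h1, hrev p q h1⟩⟩
        rintro rfl
        exact hne p p h1 rfl
      · show src p = w.1 ∧ p ∉ Det
        by_contra h; simp [h] at hxy
      · show src q = v.1 ∧ q ∉ Det
        by_contra h; simp [h] at hxy
      · exact absurd rfl hxy
    · -- degree
      intro y
      rw [Fintype.sum_sum_type]
      rcases y with q | w
      · have e1 : ∑ p : D, zw src rev Det s k (Sum.inl p) (Sum.inl q) ≤ k := by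
          simp only [zw]
          rcases hq : rev q with _ | p1
          · have : ∀ p, rev p ≠ some q := by
              intro p hp
              rw [hrev p q hp] at hq
              simp at hq
            simp [this]
          · have : ∀ p, (if rev p = some q then k else 0) = if p = p1 then k else 0 := by
              intro p
              by_cases hp : p = p1
              · subst hp
                rw [if_pos (hrev q p hq), if_pos rfl]
              · rw [if_neg hp, if_neg]
                intro h
                rw [hrev p q h] at hq
                exact hp (Option.some.inj hq)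
            simp only [this]
            simp
        have e2 : ∑ v : W × Fin s, zw src rev Det s k (Sum.inr v) (Sum.inl q) ≤ s := by
          simp only [zw]
          rw [Fintype.sum_prod_type]
          calc ∑ x : W, ∑ y : Fin s, (if src q = x ∧ q ∉ Det then 1 else 0)
              ≤ ∑ x : W, (if src q = x then s else 0) := by
                apply Finset.sum_le_sum
                intro x _
                by_cases h : src q = x
                · rw [if_pos h]
                  calc ∑ y : Fin s, (if src q = x ∧ q ∉ Det then 1 else 0)
                      ≤ ∑ y : Fin s, 1 := by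
                        apply Finset.sum_le_sum
                        intro y _
                        split_ifs <;> omega
                    _ = s := by simp
                · rw [if_neg h]
                  simp [h]
            _ = s := by simp
        omega
      · have e1 : ∑ p : D, zw src rev Det s k (Sum.inl p) (Sum.inr w) ≤ r := by
          simp only [zw]
          rw [← hreg w.1, Finset.card_filter]
          apply Finset.sum_le_sum
          intro p _
          by_cases h : src p = w.1
          · rw [if_pos h]; split_ifs <;> omega
          · simp [h]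
        have e2 : ∑ v : W × Fin s, zw src rev Det s k (Sum.inr v) (Sum.inr w) = 0 := by
          simp [zw]
        omega
    · -- clique
      intro x hx y hy hxy
      rw [mem_image] at hx hy
      obtain ⟨p, hp, rfl⟩ := hx
      obtain ⟨q, hq, rfl⟩ := hy
      exact ⟨fun h => hxy (by rw [h]), Or.inr ⟨hp, hq⟩⟩
    · -- odd sets
      intro C hC hCH
      set P : Finset D := univ.filter (fun p => Sum.inl p ∈ C) with hP
      set B : W → Finset (Fin s) := fun v => univ.filter (fun i => Sum.inr (v, i) ∈ C) with hB
      have hPH : ∀ p ∈ P, p ∉ H := by
        intro p hp hpH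
        have : Sum.inl p ∈ C := by simpa [hP] using hp
        exact (Finset.disjoint_left.1 hCH) this (mem_image_of_mem _ hpH)
      have hPDet : ∀ p ∈ P, p ∉ Det := fun p hp h => hPH p hp (hDet h)
      have hBle : ∀ v, (B v).card ≤ s := by
        intro v
        calc (B v).card ≤ (univ : Finset (Fin s)).card := Finset.card_le_univ _
          _ = s := by simp
      have hCcard : C.card = P.card + ∑ v, (B v).card := by
        have h1 : C.card = ∑ x : D ⊕ (W × Fin s), (if x ∈ C then 1 else 0) := by
          rw [Finset.sum_ite_mem]; simp
        rw [h1, Fintype.sum_sum_type, Fintype.sum_prod_type]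
        congr 1
        · rw [hP, Finset.card_filter]
        · apply Finset.sum_congr rfl
          intro v _
          rw [hB, Finset.card_filter]
      have hsumC : ∀ f : D ⊕ (W × Fin s) → ℕ, ∑ x ∈ C, f x =
          ∑ p ∈ P, f (Sum.inl p) + ∑ v, ∑ i ∈ B v, f (Sum.inr (v, i)) := by
        intro f
        have h1 : ∑ x ∈ C, f x = ∑ x : D ⊕ (W × Fin s), (if x ∈ C then f x else 0) := by
          rw [Finset.sum_ite_mem]; simp
        rw [h1, Fintype.sum_sum_type, Fintype.sum_prod_type]
        congr 1
        · rw [hP, Finset.sum_filter]
        · apply Finset.sum_congr rfl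
          intro v _
          rw [hB, Finset.sum_filter]
      have hsumCc : ∀ f : D ⊕ (W × Fin s) → ℕ, ∑ x ∈ Cᶜ, f x =
          ∑ p ∈ Pᶜ, f (Sum.inl p) + ∑ v, ∑ i ∈ (B v)ᶜ, f (Sum.inr (v, i)) := by
        intro f
        have h1 : ∑ x ∈ Cᶜ, f x = ∑ x : D ⊕ (W × Fin s), (if x ∈ Cᶜ then f x else 0) := by
          rw [Finset.sum_ite_mem]; simp
        rw [h1, Fintype.sum_sum_type, Fintype.sum_prod_type]
        congr 1
        · rw [hP, Finset.compl_filter, Finset.sum_filter]
          apply Finset.sum_congr rfl
          intro p _
          simp
        · apply Finset.sum_congr rfl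
          intro v _
          rw [hB, Finset.compl_filter, Finset.sum_filter]
          apply Finset.sum_congr rfl
          intro i _
          simp
      have hoddPB : Odd (P.card + ∑ v, (B v).card) := by rw [← hCcard]; exact hC
      have hcore := core src rev hrev hne r k s hreg hk hs h3 hr star P (fun v => (B v).card)
        hBle hoddPB
      -- lower bound of cut plus weights
      set a : W → ℕ := fun v => (P.filter (fun p => src p = v)).card with ha
      -- part 1
      have hpart1 : ∑ p ∈ P, ∑ q ∈ Pᶜ, zw src rev Det s k (Sum.inl p) (Sum.inl q) +
          ∑ p ∈ P, vw src rev H Det s k x0 (Sum.inl p) =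
          k * (P.filter (fun p => ∀ q, rev p = some q → q ∉ P)).card := by
        rw [← Finset.sum_add_distrib, Finset.card_filter, Finset.mul_sum]
        apply Finset.sum_congr rfl
        intro p hp
        simp only [zw, vw]
        rcases hh : rev p with _ | q
        · simp [hPH p hp]
        · have h1 : ∑ q' ∈ Pᶜ, (if some q = some q' then k else 0) = if q ∈ P then 0 else k := by
            by_cases hq : q ∈ P
            · rw [if_pos hq]
              apply Finset.sum_eq_zero
              intro q' hq'
              rw [if_neg]
              intro h
              have : q = q' := Option.some.inj h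
              subst this
              simp [hq] at hq'
            · rw [if_neg hq]
              rw [Finset.sum_eq_single q]
              · simp
              · intro b _ hb
                rw [if_neg]
                intro h
                exact hb (Option.some.inj h).symm
              · intro h
                simp [hq] at h
          rw [h1]
          by_cases hq : q ∈ P
          · simp [hq]
          · simp [hq]
      -- part 2
      have hpart2 : ∑ p ∈ P, ∑ v, ∑ i ∈ (B v)ᶜ, zw src rev Det s k (Sum.inl p) (Sum.inr (v, i)) =
          ∑ v, a v * (s - (B v).card) := by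
        rw [Finset.sum_comm]
        apply Finset.sum_congr rfl
        intro v _
        have h1 : ∀ p ∈ P, ∑ i ∈ (B v)ᶜ, zw src rev Det s k (Sum.inl p) (Sum.inr (v, i)) =
            if src p = v then (s - (B v).card) else 0 := by
          intro p hp
          simp only [zw]
          by_cases h : src p = v
          · simp [h, hPDet p hp, Finset.card_compl]
          · simp [h]
        rw [Finset.sum_congr rfl h1, ← Finset.sum_filter, Finset.sum_const, smul_eq_mul]
      -- part 3
      have hpart3 : ∀ v, ∑ i ∈ B v, ∑ p ∈ Pᶜ, zw src rev Det s k (Sum.inr (v, i)) (Sum.inl p) +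
          ∑ i ∈ B v, (Det.filter (fun p => src p = v)).card = (B v).card * (r - a v) := by
        intro v
        rw [← Finset.sum_add_distrib]
        have h1 : ∀ i ∈ B v, ∑ p ∈ Pᶜ, zw src rev Det s k (Sum.inr (v, i)) (Sum.inl p) +
            (Det.filter (fun p => src p = v)).card = r - a v := by
          intro i _
          simp only [zw]
          rw [← Finset.card_filter]
          have h2 : (univ.filter (fun p => src p = v)).card =
              (P.filter (fun p => src p = v)).card +
              ((Pᶜ.filter (fun p => src p = v ∧ p ∉ Det)).card +
              (Det.filter (fun p => src p = v)).card) := by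
            rw [← Finset.card_union_of_disjoint, ← Finset.card_union_of_disjoint]
            · congr 1
              ext p
              simp only [mem_filter, mem_univ, true_and, mem_union, mem_compl]
              constructor
              · intro h
                by_cases hp : p ∈ P
                · exact Or.inl ⟨hp, h⟩
                · by_cases hd : p ∈ Det
                  · exact Or.inr (Or.inr ⟨hd, h⟩)
                  · exact Or.inr (Or.inl ⟨hp, h, hd⟩)
              · rintro (h | h | h)
                · exact h.2
                · exact h.2.1
                · exact h.2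
            · rw [Finset.disjoint_left]
              intro p hp hp'
              simp only [mem_filter, mem_union, mem_compl] at hp hp'
              rcases hp' with h | h
              · exact h.1 hp.1
              · exact hPDet p hp.1 h.1
            · rw [Finset.disjoint_left]
              intro p hp hp'
              simp only [mem_filter, mem_compl] at hp hp'
              exact hp.2.2 hp'.1
          rw [hreg v] at h2
          have : a v = (P.filter (fun p => src p = v)).card := rfl
          omega
        rw [Finset.sum_congr rfl h1, Finset.sum_const, smul_eq_mul]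
      -- assemble
      have hcut : ∑ x ∈ C, ∑ u ∈ Cᶜ, zw src rev Det s k x u =
          (∑ p ∈ P, ∑ q ∈ Pᶜ, zw src rev Det s k (Sum.inl p) (Sum.inl q) +
          ∑ p ∈ P, ∑ v, ∑ i ∈ (B v)ᶜ, zw src rev Det s k (Sum.inl p) (Sum.inr (v, i))) +
          ∑ v, ∑ i ∈ B v, ∑ p ∈ Pᶜ, zw src rev Det s k (Sum.inr (v, i)) (Sum.inl p) := by
        rw [hsumC]
        congr 1
        · rw [← Finset.sum_add_distrib]
          apply Finset.sum_congr rfl
          intro p _
          rw [hsumCc]
        · apply Finset.sum_congr rfl
          intro v _
          apply Finset.sum_congr rfl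
          intro i _
          rw [hsumCc]
          have : ∑ v', ∑ i' ∈ (B v')ᶜ, zw src rev Det s k (Sum.inr (v, i)) (Sum.inr (v', i')) = 0 := by
            simp [zw]
          rw [this, Nat.add_zero]
      have hwt : ∑ x ∈ C, vw src rev H Det s k x0 x =
          ∑ p ∈ P, vw src rev H Det s k x0 (Sum.inl p) +
          (∑ v, ∑ i ∈ B v, (Det.filter (fun p => src p = v)).card +
          ∑ v, ∑ i ∈ B v, (if (univ.filter (fun p => rev p = none)).card = 1 ∧
            (Sum.inr (v, i) : D ⊕ (W × Fin s)) = x0 then k else 0)) := by
        rw [hsumC]
        congr 1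
        rw [← Finset.sum_add_distrib]
        apply Finset.sum_congr rfl
        intro v _
        rw [← Finset.sum_add_distrib]
        rfl
      have hp3 : ∑ v, ∑ i ∈ B v, ∑ p ∈ Pᶜ, zw src rev Det s k (Sum.inr (v, i)) (Sum.inl p) +
          ∑ v, ∑ i ∈ B v, (Det.filter (fun p => src p = v)).card =
          ∑ v, (B v).card * (r - a v) := by
        rw [← Finset.sum_add_distrib]
        exact Finset.sum_congr rfl (fun v _ => hpart3 v)
      have htotal : ∑ x ∈ C, ∑ u ∈ Cᶜ, zw src rev Det s k x u + ∑ x ∈ C, vw src rev H Det s k x0 x =
          (∑ v, (a v * (s - (B v).card) + (B v).card * (r - a v)) +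
          k * (P.filter (fun p => ∀ q, rev p = some q → q ∉ P)).card) +
          ∑ v, ∑ i ∈ B v, (if (univ.filter (fun p => rev p = none)).card = 1 ∧
            (Sum.inr (v, i) : D ⊕ (W × Fin s)) = x0 then k else 0) := by
        rw [hcut, hwt, Finset.sum_add_distrib, ← hpart1, ← hpart2, ← hp3]
        ring
      rw [htotal]
      rcases hcore with h | ⟨h1, h2, h4⟩
      · exact h.trans (Nat.le_add_right _ _)
      · have hx : k ≤ ∑ v, ∑ i ∈ B v, (if (univ.filter (fun p => rev p = none)).card = 1 ∧
            (Sum.inr (v, i) : D ⊕ (W × Fin s)) = x0 then k else 0) := by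
          have hy : y0.2 ∈ B y0.1 := by
            have : B y0.1 = univ := by
              apply Finset.eq_univ_of_card
              rw [h2 y0.1, Fintype.card_fin]
            rw [this]; exact mem_univ _
          calc k = (if (univ.filter (fun p => rev p = none)).card = 1 ∧
            (Sum.inr (y0.1, y0.2) : D ⊕ (W × Fin s)) = x0 then k else 0) := by
                rw [if_pos ⟨h1, rfl⟩]
            _ ≤ ∑ i ∈ B y0.1, (if (univ.filter (fun p => rev p = none)).card = 1 ∧
            (Sum.inr (y0.1, i) : D ⊕ (W × Fin s)) = x0 then k else 0) :=
                Finset.single_le_sum (f := fun i => (if (univ.filter (fun p => rev p = none)).card = 1 ∧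
            (Sum.inr (y0.1, i) : D ⊕ (W × Fin s)) = x0 then k else 0)) (fun _ _ => Nat.zero_le _) hy
            _ ≤ _ := Finset.single_le_sum (f := fun v => ∑ i ∈ B v, (if (univ.filter (fun p => rev p = none)).card = 1 ∧
            (Sum.inr (v, i) : D ⊕ (W × Fin s)) = x0 then k else 0)) (fun _ _ => Nat.zero_le _) (mem_univ y0.1)
        have h5 : ∑ v, (a v * (s - (B v).card) + (B v).card * (r - a v)) ≥ s := h4
        omega
    · -- total weight
      have hne' : (H.image (Sum.inl : D → D ⊕ (W × Fin s))).Nonempty ↔ H.Nonempty :=
        Finset.image_nonempty
      have hif : (if (H.image (Sum.inl : D → D ⊕ (W × Fin s))).Nonempty then r else 0) =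
          (if H.Nonempty then r else 0) := by
        by_cases h : H.Nonempty
        · rw [if_pos h, if_pos (hne'.2 h)]
        · rw [if_neg h, if_neg (fun h' => h (hne'.1 h'))]
      rw [hif]
      have htot : ∑ x, vw src rev H Det s k x0 x ≤
          k * (univ.filter (fun p => rev p = none ∧ p ∉ H)).card + s * Det.card +
      (if (univ.filter (fun p => rev p = none)).card = 1 then k else 0) := by
        rw [Fintype.sum_sum_type, Fintype.sum_prod_type]
        have e1 : ∑ p : D, vw src rev H Det s k x0 (Sum.inl p) =
            k * (univ.filter (fun p => rev p = none ∧ p ∉ H)).card := by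
          simp only [vw]
          rw [← Finset.sum_filter, Finset.sum_const, smul_eq_mul, mul_comm]
        have e2 : ∑ v : W, ∑ i : Fin s, vw src rev H Det s k x0 (Sum.inr (v, i)) =
            s * Det.card + ∑ v : W, ∑ i : Fin s,
            (if (univ.filter (fun p => rev p = none)).card = 1 ∧
            (Sum.inr (v, i) : D ⊕ (W × Fin s)) = x0 then k else 0) := by
          simp only [vw]
          have h1 : Det.card = ∑ v, (Det.filter (fun p => src p = v)).card :=
            Finset.card_eq_sum_card_fiberwise (fun _ _ => Finset.mem_coe.2 (mem_univ _))
          rw [h1, Finset.mul_sum, ← Finset.sum_add_distrib]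
          apply Finset.sum_congr rfl
          intro v _
          rw [Finset.sum_add_distrib]
          simp
        have e3 : ∑ v : W, ∑ i : Fin s,
            (if (univ.filter (fun p => rev p = none)).card = 1 ∧
            (Sum.inr (v, i) : D ⊕ (W × Fin s)) = x0 then k else 0) ≤
            (if (univ.filter (fun p => rev p = none)).card = 1 then k else 0) := by
          rw [← Fintype.sum_prod_type (f := fun y : W × Fin s =>
            (if (univ.filter (fun p => rev p = none)).card = 1 ∧
            (Sum.inr y : D ⊕ (W × Fin s)) = x0 then k else 0))]
          by_cases h : (univ.filter (fun p => rev p = none)).card = 1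
          · rw [if_pos h]
            have : ∀ y : W × Fin s, (if (univ.filter (fun p => rev p = none)).card = 1 ∧
            (Sum.inr y : D ⊕ (W × Fin s)) = x0 then k else 0) = if y = y0 then k else 0 := by
              intro y
              by_cases hy : y = y0
              · subst hy; rw [if_pos ⟨h, rfl⟩, if_pos rfl]
              · rw [if_neg hy, if_neg]
                rintro ⟨_, h'⟩
                exact hy (Sum.inr.inj h')
            simp only [this]
            simp
          · rw [if_neg h]
            simp [h]
        omega
      omega
  -- extract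
  obtain ⟨M, hM⟩ := hpm
  rw [SimpleGraph.Subgraph.isPerfectMatching_iff] at hM
  choose m hm hmu using hM
  have hmm : ∀ x, m (m x) = x := by
    intro x
    exact ((hmu (m x)) x (hm x).symm).symm
  have hadj : ∀ x, (gad src rev H Det s).Adj x (m x) := fun x => M.adj_sub (hm x)
  set X : Finset D := univ.filter (fun p => ∃ q, m (Sum.inl p) = Sum.inl q) with hX
  have hXmem : ∀ p, p ∈ X ↔ ∃ q, m (Sum.inl p) = Sum.inl q := by
    intro p; simp [hX]
  have hcase : ∀ p q, m (Sum.inl p) = Sum.inl q →
      p ≠ q ∧ ((rev p = some q ∧ rev q = some p) ∨ (p ∈ H ∧ q ∈ H)) := by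
    intro p q h
    have := hadj (Sum.inl p)
    rw [h] at this
    exact this
  refine ⟨X, ?_, ?_, ?_, ?_⟩
  · intro v
    -- complement within the fibre is in bijection with Fin s
    have h1 : ((univ.filter (fun p => src p = v)).filter (fun p => p ∉ X)).card = s := by
      have h2 : (univ : Finset (Fin s)).card = s := by simp
      rw [← h2]
      symm
      -- map i to the partner of inr (v,i)
      have hpart : ∀ i : Fin s, ∃ p : D, m (Sum.inr (v, i)) = Sum.inl p := by
        intro i
        rcases hh : m (Sum.inr (v, i)) with p | y
        · exact ⟨p, rfl⟩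
        · have := hadj (Sum.inr (v, i))
          rw [hh] at this
          exact this.elim
      choose g hg using hpart
      refine Finset.card_bij (fun i _ => g i) ?_ ?_ ?_
      · intro i _
        have h4 := hadj (Sum.inr (v, i))
        rw [hg i] at h4
        have h5 : src (g i) = v ∧ g i ∉ Det := h4
        simp only [mem_filter, mem_univ, true_and]
        refine ⟨h5.1, ?_⟩
        rw [hXmem]
        rintro ⟨q, hq⟩
        have h6 := hmm (Sum.inr (v, i))
        rw [hg i, hq] at h6
        exact absurd h6 (by simp)
      · intro i _ j _ hij
        have h6 := hmm (Sum.inr (v, i))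
        have h7 := hmm (Sum.inr (v, j))
        rw [hg i] at h6
        rw [hg j] at h7
        rw [show g i = g j from hij, h7] at h6
        have := Sum.inr.inj h6
        exact (Prod.mk.inj this).2.symm
      · intro p hp
        simp only [mem_filter, mem_univ, true_and] at hp
        rcases hh : m (Sum.inl p) with q | y
        · exact absurd ((hXmem p).2 ⟨q, hh⟩) hp.2
        · have h4 := hadj (Sum.inl p)
          rw [hh] at h4
          have h5 : src p = y.1 ∧ p ∉ Det := h4
          refine ⟨y.2, mem_univ _, ?_⟩
          have h6 := hmm (Sum.inl p)
          rw [hh] at h6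
          have h7 : y = (v, y.2) := by
            rw [← hp.1, h5.1]
          rw [h7] at h6
          rw [hg y.2] at h6
          exact Sum.inl.inj h6
    have h2 := Finset.card_filter_add_card_filter_not (s := univ.filter (fun p => src p = v))
      (fun p => p ∈ X)
    rw [hreg v, h1] at h2
    have h3 : (univ.filter (fun p => src p = v)).filter (fun p => p ∈ X) =
        X.filter (fun p => src p = v) := by
      ext p; simp only [mem_filter, mem_univ, true_and]; tauto
    rw [h3] at h2
    omega
  · intro p q hpq hp
    rw [hXmem] at hp ⊢
    obtain ⟨q', hq'⟩ := hp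
    rcases (hcase p q' hq').2 with h | h
    · have : q' = q := by
        rw [hpq] at h
        exact (Option.some.inj h.1).symm
      subst this
      refine ⟨p, ?_⟩
      rw [← hq']
      exact hmm _
    · exfalso
      have := hH p h.1
      rw [hpq] at this
      simp at this
  · intro p hp hnone
    rw [hXmem] at hp
    obtain ⟨q', hq'⟩ := hp
    rcases (hcase p q' hq').2 with h | h
    · rw [hnone] at h
      simp at h
    · exact h.1
  · intro p hp
    rw [hXmem]
    rcases hh : m (Sum.inl p) with q | y
    · exact ⟨q, rfl⟩
    · exfalso
      have h4 := hadj (Sum.inl p)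
      rw [hh] at h4
      have h5 : src p = y.1 ∧ p ∉ Det := h4
      exact h5.2 hp

end

end Pool.Agent.Helper777.ZFlow
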