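import Mathlib
import Pool.Agent.Helper777.ZFactor

set_option autoImplicit false

namespace Pool.Agent.Helper777.ZFlow

open Finset

theorem card_sub {α : Type*} [DecidableEq α] (A : Finset α) (Q : α → Prop) [DecidablePred Q] :
    (univ.filter (fun p : ↥A => Q p.1)).card = (A.filter Q).card := by
  rw [← Finset.card_map (Function.Embedding.subtype _)]
  congr 1
  ext x
  simp only [mem_map, mem_filter, mem_univ, true_and, Function.Embedding.coe_subtype]
  constructor
  · rintro ⟨a, h1, rfl⟩
    exact ⟨a.2, h1⟩
  · rintro ⟨h1, h2⟩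
    exact ⟨⟨x, h1⟩, h2, rfl⟩

section
variable {V : Type*} [DecidableEq V]

/-- A regular dart structure on a vertex set `W`: darts start in `W`, inner darts come in
opposite pairs, and each vertex of `W` carries exactly `r` darts. -/
structure Str (W : Finset V) (A : Finset (V × V)) (r : ℕ) : Prop where
  src : ∀ p ∈ A, p.1 ∈ W
  ne : ∀ p ∈ A, p.1 ≠ p.2
  sym : ∀ p ∈ A, p.2 ∈ W → p.swap ∈ A
  reg : ∀ v ∈ W, (A.filter (fun p => p.1 = v)).card = r

theorem factor_pairs (W : Finset V) (A : Finset (V × V)) (r k s : ℕ) (hA : Str W A r)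
    (hk : Even k) (hs : s + k = r) (h3 : r ≤ 3 * s) (hr : 0 < r)
    (star : ∀ S ⊆ W, S ≠ W → (A.filter (fun p => p.1 ∈ S ∧ p.2 ∉ S)).card ≠ 1)
    (H Det : Finset (V × V)) (hH : ∀ p ∈ H, p ∈ A ∧ p.2 ∉ W) (hDet : Det ⊆ H)
    (hnum : k * (A.filter (fun p => p.2 ∉ W ∧ p ∉ H)).card + s * Det.card +
      (if (A.filter (fun p => p.2 ∉ W)).card = 1 then k else 0) +
      (if H.Nonempty then r else 0) < 2 * r) :
    ∃ X ⊆ A, Str W X k ∧ (∀ p ∈ X, p.2 ∉ W → p ∈ H) ∧ Det ⊆ X := by
  classical
  let src : ↥A → ↥W := fun p => ⟨p.1.1, hA.src p.1 p.2⟩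
  let rev : ↥A → Option ↥A := fun p =>
    if h : p.1.2 ∈ W then some ⟨p.1.swap, hA.sym p.1 p.2 h⟩ else none
  have hrev_some : ∀ p q, rev p = some q ↔ (p.1.2 ∈ W ∧ q.1 = p.1.swap) := by
    intro p q
    simp only [rev]
    split_ifs with h
    · constructor
      · intro h'
        have := Option.some.inj h'
        exact ⟨h, by rw [← this]⟩
      · rintro ⟨_, h'⟩
        congr 1
        exact Subtype.ext h'.symm
    · constructor
      · intro h'; exact absurd h' (by simp)
      · rintro ⟨h', _⟩; exact absurd h' h
  have hrev_none : ∀ p, rev p = none ↔ p.1.2 ∉ W := by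
    intro p
    simp only [rev]
    split_ifs with h
    · simp [h]
    · simp [h]
  have hdetcard : ((univ : Finset ↥A).filter (fun p => p.1 ∈ Det)).card = Det.card := by
    rw [card_sub A (fun p => p ∈ Det)]
    congr 1
    ext p
    simp only [mem_filter]
    constructor
    · exact fun h => h.2
    · exact fun h => ⟨(hH p (hDet h)).1, h⟩
  have hHne : ((univ : Finset ↥A).filter (fun p => p.1 ∈ H)).Nonempty ↔ H.Nonempty := by
    constructor
    · rintro ⟨p, hp⟩
      exact ⟨p.1, (mem_filter.1 hp).2⟩
    · rintro ⟨p, hp⟩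
      exact ⟨⟨p, (hH p hp).1⟩, by simp [hp]⟩
  have hcnt1 : (univ.filter (fun p : ↥A => rev p = none ∧
      p ∉ (univ : Finset ↥A).filter (fun p => p.1 ∈ H))).card =
      (A.filter (fun p => p.2 ∉ W ∧ p ∉ H)).card := by
    rw [← card_sub A (fun p => p.2 ∉ W ∧ p ∉ H)]
    congr 1
    ext p
    simp only [mem_filter, mem_univ, true_and, hrev_none]
  have hcnt2 : (univ.filter (fun p : ↥A => rev p = none)).card =
      (A.filter (fun p => p.2 ∉ W)).card := by
    rw [← card_sub A (fun p => p.2 ∉ W)]
    congr 1
    ext p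
    simp only [mem_filter, mem_univ, true_and, hrev_none]
  obtain ⟨X, hX1, hX2, hX3, hX4⟩ := exists_factor src rev
    (by
      intro p q h
      rw [hrev_some] at h ⊢
      refine ⟨?_, ?_⟩
      · rw [h.2]; exact hA.src p.1 p.2
      · rw [h.2]; simp)
    (by
      intro p q h
      rw [hrev_some] at h
      intro h'
      have h4 : p.1.1 = q.1.1 := congrArg Subtype.val h'
      rw [h.2] at h4
      exact hA.ne p.1 p.2 h4)
    r k s
    (by
      intro v
      rw [← hA.reg v.1 v.2, ← card_sub A (fun p => p.1 = v.1)]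
      congr 1
      ext p
      simp only [mem_filter, mem_univ, true_and, src]
      constructor
      · intro h; exact congrArg Subtype.val h
      · intro h; exact Subtype.ext h)
    hk hs h3 hr
    (by
      intro S hS
      have h1 : (S.map (Function.Embedding.subtype _)) ⊆ W := by
        intro v hv
        simp only [mem_map, Function.Embedding.coe_subtype] at hv
        obtain ⟨a, _, rfl⟩ := hv
        exact a.2
      have h2 : (S.map (Function.Embedding.subtype _)) ≠ W := by
        intro h
        apply hS
        rw [Finset.eq_univ_iff_forall]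
        intro v
        have : v.1 ∈ S.map (Function.Embedding.subtype _) := by rw [h]; exact v.2
        simp only [mem_map, Function.Embedding.coe_subtype] at this
        obtain ⟨a, ha, hav⟩ := this
        rwa [Subtype.ext hav] at ha
      have h4 := star _ h1 h2
      intro h5
      apply h4
      rw [← h5, ← card_sub A (fun p => p.1 ∈ S.map (Function.Embedding.subtype _) ∧
        p.2 ∉ S.map (Function.Embedding.subtype _))]
      congr 1
      ext p
      simp only [mem_filter, mem_univ, true_and, mem_map, Function.Embedding.coe_subtype]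
      constructor
      · rintro ⟨⟨a, ha, hap⟩, hb⟩
        refine ⟨?_, ?_⟩
        · have : src p = a := Subtype.ext hap.symm
          rw [this]; exact ha
        · intro q hq hqS
          rw [hrev_some] at hq
          apply hb
          refine ⟨src q, hqS, ?_⟩
          show q.1.1 = p.1.2
          rw [hq.2]; rfl
      · rintro ⟨ha, hb⟩
        refine ⟨⟨src p, ha, rfl⟩, ?_⟩
        rintro ⟨a, haS, hap⟩
        have hW : p.1.2 ∈ W := by rw [← hap]; exact a.2
        apply hb ⟨p.1.swap, hA.sym p.1 p.2 hW⟩
        · rw [hrev_some]; exact ⟨hW, rfl⟩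
        · have : src ⟨p.1.swap, hA.sym p.1 p.2 hW⟩ = a := Subtype.ext hap.symm
          rw [this]; exact haS)
    ((univ : Finset ↥A).filter (fun p => p.1 ∈ H)) ((univ : Finset ↥A).filter (fun p => p.1 ∈ Det))
    (by
      intro p hp
      rw [hrev_none]
      exact (hH p.1 (mem_filter.1 hp).2).2)
    (by
      intro p hp
      simp only [mem_filter, mem_univ, true_and] at hp ⊢
      exact hDet hp)
    (by
      rw [hcnt1, hcnt2, hdetcard]
      by_cases h : H.Nonempty
      · rw [if_pos (hHne.2 h)]
        rwa [if_pos h] at hnum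
      · rw [if_neg (fun h' => h (hHne.1 h'))]
        rwa [if_neg h] at hnum)
  refine ⟨X.map (Function.Embedding.subtype _), ?_, ⟨?_, ?_, ?_, ?_⟩, ?_, ?_⟩
  · intro p hp
    simp only [mem_map, Function.Embedding.coe_subtype] at hp
    obtain ⟨a, _, rfl⟩ := hp
    exact a.2
  · intro p hp
    simp only [mem_map, Function.Embedding.coe_subtype] at hp
    obtain ⟨a, _, rfl⟩ := hp
    exact hA.src _ a.2
  · intro p hp
    simp only [mem_map, Function.Embedding.coe_subtype] at hp
    obtain ⟨a, _, rfl⟩ := hp
    exact hA.ne _ a.2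
  · intro p hp hpW
    simp only [mem_map, Function.Embedding.coe_subtype] at hp
    obtain ⟨a, ha, rfl⟩ := hp
    simp only [mem_map, Function.Embedding.coe_subtype]
    refine ⟨⟨a.1.swap, hA.sym _ a.2 hpW⟩, ?_, rfl⟩
    exact hX2 a _ ((hrev_some _ _).2 ⟨hpW, rfl⟩) ha
  · intro v hv
    rw [← hX1 ⟨v, hv⟩, ← Finset.card_map (Function.Embedding.subtype _)]
    congr 1
    ext p
    simp only [mem_map, mem_filter, Function.Embedding.coe_subtype]
    constructor
    · rintro ⟨⟨a, ha, rfl⟩, h⟩
      exact ⟨a, ⟨ha, Subtype.ext h⟩, rfl⟩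
    · rintro ⟨a, ⟨ha, h⟩, rfl⟩
      exact ⟨⟨a, ha, rfl⟩, congrArg Subtype.val h⟩
  · intro p hp hpW
    simp only [mem_map, Function.Embedding.coe_subtype] at hp
    obtain ⟨a, ha, rfl⟩ := hp
    have := hX3 a ha ((hrev_none a).2 hpW)
    exact (mem_filter.1 this).2
  · intro p hp
    simp only [mem_map, Function.Embedding.coe_subtype]
    refine ⟨⟨p, (hH p (hDet hp)).1⟩, ?_, rfl⟩
    apply hX4
    simp [hp]

/-- Inner darts of a vertex set come in pairs. -/
theorem even_inner (W : Finset V) (A : Finset (V × V)) (r : ℕ) (hA : Str W A r) (S : Finset V)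
    (hS : S ⊆ W) : Even (A.filter (fun p => p.1 ∈ S ∧ p.2 ∈ S)).card := by
  have h : ((A.filter (fun p => p.1 ∈ S ∧ p.2 ∈ S)).card : ZMod 2) = 0 := by
    rw [Finset.cast_card]
    refine Finset.sum_involution (fun p _ => p.swap) ?_ ?_ ?_ ?_
    · intro p _; decide
    · intro p hp _ h
      rw [mem_filter] at hp
      apply hA.ne p hp.1
      have := congrArg Prod.fst h
      simpa using this.symm
    · intro p hp
      rw [mem_filter] at hp ⊢
      exact ⟨hA.sym p hp.1 (hS hp.2.2), hp.2.2, hp.2.1⟩
    · intro p _; simp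
  rwa [ZMod.natCast_eq_zero_iff_even] at h

theorem card_src (W : Finset V) (A : Finset (V × V)) (r : ℕ) (hA : Str W A r) (S : Finset V)
    (hS : S ⊆ W) : (A.filter (fun p => p.1 ∈ S)).card = S.card * r := by
  have h1 : (A.filter (fun p => p.1 ∈ S)).card = ∑ v ∈ S, (A.filter (fun p => p.1 = v)).card := by
    rw [Finset.card_eq_sum_card_fiberwise (f := fun p : V × V => p.1) (t := S)]
    · apply Finset.sum_congr rfl
      intro v hv
      congr 1
      ext p
      simp only [mem_filter]
      constructor
      · rintro ⟨⟨h1, _⟩, h2⟩; exact ⟨h1, h2⟩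
      · rintro ⟨h1, h2⟩; exact ⟨⟨h1, h2 ▸ hv⟩, h2⟩
    · intro p hp
      rw [Finset.mem_coe, mem_filter] at hp
      exact hp.2
  rw [h1, Finset.sum_congr rfl (fun v hv => hA.reg v (hS hv)), Finset.sum_const, smul_eq_mul]

theorem parity_cross (W : Finset V) (A : Finset (V × V)) (r : ℕ) (hA : Str W A r) (S : Finset V)
    (hS : S ⊆ W) : Even ((A.filter (fun p => p.1 ∈ S ∧ p.2 ∉ S)).card + S.card * r) := by
  have h1 := card_src W A r hA S hS
  have h2 := even_inner W A r hA S hS
  have h3 := Finset.card_filter_add_card_filter_not (s := A.filter (fun p => p.1 ∈ S))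
    (fun p => p.2 ∈ S)
  rw [Finset.filter_filter, Finset.filter_filter, h1] at h3
  rw [← h3]
  obtain ⟨c, hc⟩ := h2
  rw [hc]
  exact ⟨(A.filter (fun p => p.1 ∈ S ∧ p.2 ∉ S)).card + c, by ring⟩

theorem parity_leaving (W : Finset V) (A : Finset (V × V)) (r : ℕ) (hA : Str W A r) :
    Even ((A.filter (fun p => p.2 ∉ W)).card + W.card * r) := by
  have h1 := parity_cross W A r hA W (Finset.Subset.refl _)
  have h2 : A.filter (fun p => p.1 ∈ W ∧ p.2 ∉ W) = A.filter (fun p => p.2 ∉ W) := by
    ext p
    simp only [mem_filter]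
    constructor
    · rintro ⟨a, _, b⟩; exact ⟨a, b⟩
    · rintro ⟨a, b⟩; exact ⟨a, hA.src p a, b⟩
  rwa [h2] at h1

theorem Str.sdiff {W : Finset V} {A X : Finset (V × V)} {r k : ℕ} (hA : Str W A r)
    (hX : Str W X k) (hXA : X ⊆ A) : Str W (A \ X) (r - k) where
  src := fun p hp => hA.src p (mem_sdiff.1 hp).1
  ne := fun p hp => hA.ne p (mem_sdiff.1 hp).1
  sym := by
    intro p hp hpW
    rw [mem_sdiff] at hp ⊢
    refine ⟨hA.sym p hp.1 hpW, ?_⟩
    intro h
    apply hp.2
    have := hX.sym p.swap h (hA.src p hp.1)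
    simpa using this
  reg := by
    intro v hv
    have h1 : (A \ X).filter (fun p => p.1 = v) =
        (A.filter (fun p => p.1 = v)) \ (X.filter (fun p => p.1 = v)) := by
      ext p
      simp only [mem_filter, mem_sdiff]
      tauto
    rw [h1, Finset.card_sdiff_of_subset (Finset.filter_subset_filter _ hXA), hA.reg v hv,
      hX.reg v hv]

theorem Str.union {W : Finset V} {A X : Finset (V × V)} {r k : ℕ} (hA : Str W A r)
    (hX : Str W X k) (hd : Disjoint A X) : Str W (A ∪ X) (r + k) where
  src := by
    intro p hp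
    rcases mem_union.1 hp with h | h
    · exact hA.src p h
    · exact hX.src p h
  ne := by
    intro p hp
    rcases mem_union.1 hp with h | h
    · exact hA.ne p h
    · exact hX.ne p h
  sym := by
    intro p hp hpW
    rcases mem_union.1 hp with h | h
    · exact mem_union_left _ (hA.sym p h hpW)
    · exact mem_union_right _ (hX.sym p h hpW)
  reg := by
    intro v hv
    rw [Finset.filter_union, Finset.card_union_of_disjoint, hA.reg v hv, hX.reg v hv]
    exact Finset.disjoint_filter_filter hd

/-- In an even regular dart structure there are sub-structures of each even degree. -/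
theorem even_extract (W : Finset V) (i : ℕ) : ∀ (r : ℕ) (A : Finset (V × V)), Str W A r →
    Even r → 2 * i ≤ r → ∃ X ⊆ A, Str W X (2 * i) := by
  induction i with
  | zero =>
    intro r A _ _ _
    refine ⟨∅, Finset.empty_subset _, ⟨?_, ?_, ?_, ?_⟩⟩ <;> simp
  | succ i ih =>
    intro r A hA hr hir
    rcases Nat.lt_or_ge r 3 with hr3 | hr3
    · have h1 : r = 2 * (i + 1) := by
        obtain ⟨c, hc⟩ := hr
        omega
      exact ⟨A, Finset.Subset.refl _, h1 ▸ hA⟩
    · have hr4 : 4 ≤ r := by
        obtain ⟨c, hc⟩ := hr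
        omega
      have hleav : (A.filter (fun p => p.2 ∉ W)).card ≠ 1 := by
        intro h
        have := parity_leaving W A r hA
        rw [h] at this
        have h2 : Even (W.card * r) := hr.mul_left _
        rw [Nat.even_add] at this
        exact absurd (this.2 h2) (by decide)
      obtain ⟨X, hXA, hX, _, _⟩ := factor_pairs W A r 2 (r - 2) hA (by decide) (by omega)
        (by omega) (by omega)
        (by
          intro S hS _ h
          have := parity_cross W A r hA S hS
          rw [h] at this
          have h2 : Even (S.card * r) := hr.mul_left _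
          rw [Nat.even_add] at this
          exact absurd (this.2 h2) (by decide))
        (A.filter (fun p => p.2 ∉ W)) ∅
        (by intro p hp; rw [mem_filter] at hp; exact hp)
        (Finset.empty_subset _)
        (by
          have h1 : A.filter (fun p => p.2 ∉ W ∧ p ∉ A.filter (fun p => p.2 ∉ W)) = ∅ := by
            ext p
            simp only [mem_filter, notMem_empty, iff_false]
            tauto
          rw [h1, if_neg hleav]
          simp only [card_empty, Nat.mul_zero, Nat.zero_add]
          split_ifs <;> omega)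
      obtain ⟨Y, hYA, hY⟩ := ih (r - 2) (A \ X) (hA.sdiff hX hXA)
        (by
          obtain ⟨c, hc⟩ := hr
          exact ⟨c - 1, by omega⟩)
        (by omega)
      have hd : Disjoint Y X := by
        rw [Finset.disjoint_left]
        intro p hp hpX
        exact (mem_sdiff.1 (hYA hp)).2 hpX
      refine ⟨Y ∪ X, ?_, ?_⟩
      · intro p hp
        rcases mem_union.1 hp with h | h
        · exact (mem_sdiff.1 (hYA h)).1
        · exact hXA h
      · have := hY.union hX hd
        have h2 : 2 * i + 2 = 2 * (i + 1) := by ring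
        rwa [h2] at this

/-- The same, avoiding a prescribed leaving dart. -/
theorem even_extract_avoid (W : Finset V) (i r : ℕ) (A : Finset (V × V)) (hA : Str W A r)
    (hr : Even r) (hir : 2 * i < r) (d : V × V) (hd : d ∈ A) (hdW : d.2 ∉ W) :
    ∃ X ⊆ A, Str W X (2 * i) ∧ d ∉ X := by
  rcases Nat.lt_or_ge r 3 with hr3 | hr3
  · have h1 : i = 0 := by omega
    subst h1
    refine ⟨∅, Finset.empty_subset _, ⟨?_, ?_, ?_, ?_⟩, ?_⟩ <;> simp
  · have hr4 : 4 ≤ r := by
      obtain ⟨c, hc⟩ := hr
      omega
    have hleav : (A.filter (fun p => p.2 ∉ W)).card ≠ 1 := by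
      intro h
      have := parity_leaving W A r hA
      rw [h] at this
      have h2 : Even (W.card * r) := hr.mul_left _
      rw [Nat.even_add] at this
      exact absurd (this.2 h2) (by decide)
    obtain ⟨X, hXA, hX, _, hdX⟩ := factor_pairs W A r 2 (r - 2) hA (by decide) (by omega)
      (by omega) (by omega)
      (by
        intro S hS _ h
        have := parity_cross W A r hA S hS
        rw [h] at this
        have h2 : Even (S.card * r) := hr.mul_left _
        rw [Nat.even_add] at this
        exact absurd (this.2 h2) (by decide))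
      (A.filter (fun p => p.2 ∉ W)) {d}
      (by intro p hp; rw [mem_filter] at hp; exact hp)
      (by
        intro p hp
        rw [mem_singleton] at hp
        subst hp
        rw [mem_filter]
        exact ⟨hd, hdW⟩)
      (by
        have h1 : A.filter (fun p => p.2 ∉ W ∧ p ∉ A.filter (fun p => p.2 ∉ W)) = ∅ := by
          ext p
          simp only [mem_filter, notMem_empty, iff_false]
          tauto
        rw [h1, if_neg hleav]
        simp only [card_empty, Nat.mul_zero, Nat.zero_add, card_singleton]
        split_ifs <;> omega)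
    obtain ⟨Y, hYA, hY⟩ := even_extract W i (r - 2) (A \ X) (hA.sdiff hX hXA)
      (by
        obtain ⟨c, hc⟩ := hr
        exact ⟨c - 1, by omega⟩)
      (by
        obtain ⟨c, hc⟩ := hr
        omega)
    refine ⟨Y, ?_, hY, ?_⟩
    · intro p hp
      exact (mem_sdiff.1 (hYA hp)).1
    · intro h
      exact (mem_sdiff.1 (hYA h)).2 (hdX (mem_singleton_self d))

end

end Pool.Agent.Helper777.ZFlow
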