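import Mathlib
import Pool.Agent.Helper777.ZStr
import Pool.Agent.Helper777.ZSign

set_option autoImplicit false

namespace Pool.Agent.Helper777.ZFlow

open Finset

section
variable {V : Type*} [Fintype V] [DecidableEq V] (G : SimpleGraph V) [DecidableRel G.Adj]

/-- The darts of `G` starting in `W`. -/
def darts (W : Finset V) : Finset (V × V) := (W ×ˢ univ).filter (fun p => G.Adj p.1 p.2)

theorem mem_darts (W : Finset V) (p : V × V) : p ∈ darts G W ↔ p.1 ∈ W ∧ G.Adj p.1 p.2 := by
  simp [darts]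

theorem str_darts (r : ℕ) (hG : G.IsRegularOfDegree r) (W : Finset V) :
    Str W (darts G W) r where
  src := fun p hp => ((mem_darts G W p).1 hp).1
  ne := fun p hp => ((mem_darts G W p).1 hp).2.ne
  sym := by
    intro p hp hpW
    rw [mem_darts] at hp ⊢
    exact ⟨hpW, hp.2.symm⟩
  reg := by
    intro v hv
    rw [← hG v, ← SimpleGraph.card_neighborFinset_eq_degree]
    symm
    apply Finset.card_bij (fun u _ => (v, u))
    · intro u hu
      rw [SimpleGraph.mem_neighborFinset] at hu
      rw [mem_filter, mem_darts]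
      exact ⟨⟨hv, hu⟩, rfl⟩
    · intro u _ u' _ h
      exact (Prod.mk.inj h).2
    · intro p hp
      rw [mem_filter, mem_darts] at hp
      refine ⟨p.2, ?_, ?_⟩
      · rw [SimpleGraph.mem_neighborFinset]
        rw [← hp.2]; exact hp.1.2
      · rw [← hp.2]

theorem sum_ind (W : Finset V) (X : Finset (V × V)) (k : ℕ) (hX : Str W X k)
    (hXd : X ⊆ darts G W) (v : V) (hv : v ∈ W) :
    ∑ u ∈ G.neighborFinset v, (if (v, u) ∈ X then (1 : ℤ) else 0) = k := by
  rw [Finset.sum_boole, ← hX.reg v hv]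
  congr 1
  apply Finset.card_bij (fun u _ => (v, u))
  · intro u hu
    rw [mem_filter] at hu ⊢
    exact ⟨hu.2, rfl⟩
  · intro u _ u' _ h
    exact (Prod.mk.inj h).2
  · intro p hp
    rw [mem_filter] at hp
    have h1 := (mem_darts G W p).1 (hXd hp.1)
    refine ⟨p.2, ?_, ?_⟩
    · rw [mem_filter, SimpleGraph.mem_neighborFinset]
      rw [← hp.2]
      exact ⟨h1.2, hp.1⟩
    · rw [← hp.2]

/-- Partial zero-sum labellings on the darts starting in `W`. -/
def Valid (W : Finset V) (f : V → V → ℤ) : Prop :=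
  (∀ v ∈ W, ∀ u, G.Adj v u → f v u ≠ 0 ∧ |f v u| < 5) ∧
  (∀ v ∈ W, ∀ u ∈ W, G.Adj v u → f v u = f u v) ∧
  (∀ v ∈ W, ∀ u, u ∉ W → G.Adj v u → Even (f v u)) ∧
  (∀ v ∈ W, ∑ u ∈ G.neighborFinset v, f v u = 0)

/-- `W` carries a partial labelling, and each leaving dart can be given the value 2 or 4. -/
def OK (W : Finset V) : Prop :=
  (∃ f, Valid G W f) ∧
  ∀ v0 ∈ W, ∀ u0, u0 ∉ W → G.Adj v0 u0 → ∀ m : ℤ, (m = 2 ∨ m = 4) →
    ∃ f, Valid G W f ∧ f v0 u0 = m

theorem Valid.neg {W : Finset V} {f : V → V → ℤ} (h : Valid G W f) :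
    Valid G W (fun v u => - f v u) := by
  obtain ⟨h1, h2, h3, h4⟩ := h
  refine ⟨?_, ?_, ?_, ?_⟩
  · intro v hv u huv
    have := h1 v hv u huv
    simp only [ne_eq, neg_eq_zero, abs_neg]
    exact this
  · intro v hv u hu huv
    simp only [neg_inj]
    exact h2 v hv u hu huv
  · intro v hv u hu huv
    exact (h3 v hv u hu huv).neg
  · intro v hv
    simp only [Finset.sum_neg_distrib, neg_eq_zero]
    exact h4 v hv

/-- The labelling from a pair of nested factors. -/
theorem lab (r k j : ℕ) (hG : G.IsRegularOfDegree r) (W : Finset V) (X X2 : Finset (V × V))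
    (hX : Str W X k) (hXd : X ⊆ darts G W) (hX2 : Str W X2 j) (hX2X : X2 ⊆ X)
    (hkj : 3 * k + j = 2 * r) (c : ℤ) (hc : c = 1 ∨ c = -1 ∨ c = 2 ∨ c = -2)
    (hev : Even c ∨ ∀ p ∈ X, p.2 ∈ W) :
    Valid G W (fun v u => c * (-2 + 3 * (if (v, u) ∈ X then (1 : ℤ) else 0) +
      (if (v, u) ∈ X2 then (1 : ℤ) else 0))) := by
  have hval : ∀ v u, (-2 + 3 * (if (v, u) ∈ X then (1 : ℤ) else 0) +
      (if (v, u) ∈ X2 then (1 : ℤ) else 0)) = -2 ∨
      (-2 + 3 * (if (v, u) ∈ X then (1 : ℤ) else 0) +
      (if (v, u) ∈ X2 then (1 : ℤ) else 0)) = 1 ∨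
      (-2 + 3 * (if (v, u) ∈ X then (1 : ℤ) else 0) +
      (if (v, u) ∈ X2 then (1 : ℤ) else 0)) = 2 := by
    intro v u
    by_cases h1 : (v, u) ∈ X
    · by_cases h2 : (v, u) ∈ X2
      · simp [h1, h2]
      · simp [h1, h2]
    · have h2 : (v, u) ∉ X2 := fun h => h1 (hX2X h)
      simp [h1, h2]
  refine ⟨?_, ?_, ?_, ?_⟩
  · intro v hv u huv
    simp only
    rcases hval v u with h | h | h <;> rw [h] <;> rcases hc with h' | h' | h' | h' <;>
      rw [h'] <;> norm_num
  · intro v hv u hu huv
    have e1 : (v, u) ∈ X ↔ (u, v) ∈ X :=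
      ⟨fun h => hX.sym _ h hu, fun h => hX.sym _ h hv⟩
    have e2 : (v, u) ∈ X2 ↔ (u, v) ∈ X2 :=
      ⟨fun h => hX2.sym _ h hu, fun h => hX2.sym _ h hv⟩
    simp only [e1, e2]
  · intro v hv u hu huv
    simp only
    rcases hev with h | h
    · exact h.mul_right _
    · have h1 : (v, u) ∉ X := fun h' => hu (h _ h')
      have h2 : (v, u) ∉ X2 := fun h => h1 (hX2X h)
      simp only [h1, h2, if_false]
      exact ⟨-c, by ring⟩
  · intro v hv
    rw [← Finset.mul_sum, Finset.sum_add_distrib, Finset.sum_add_distrib, ← Finset.mul_sum,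
      sum_ind G W X k hX hXd v hv, sum_ind G W X2 j hX2 (hX2X.trans hXd) v hv, Finset.sum_const,
      SimpleGraph.card_neighborFinset_eq_degree, hG v]
    have : (3 * (k : ℤ) + j) = 2 * r := by exact_mod_cast hkj
    rw [nsmul_eq_mul]
    have h2 : ((r : ℤ) * -2 + 3 * (k : ℤ) + j) = 0 := by linarith
    rw [h2, mul_zero]

/-- Two crossing darts on every internal cut. -/
def Cut2 (W : Finset V) : Prop :=
  ∀ S ⊆ W, S.Nonempty → S ≠ W →
    2 ≤ ((darts G W).filter (fun p => p.1 ∈ S ∧ p.2 ∈ W ∧ p.2 ∉ S)).card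

theorem star_of_cut2 (W : Finset V) (h : Cut2 G W) :
    ∀ S ⊆ W, S ≠ W → ((darts G W).filter (fun p => p.1 ∈ S ∧ p.2 ∉ S)).card ≠ 1 := by
  intro S hS hSW
  rcases S.eq_empty_or_nonempty with he | hne
  · subst he
    simp
  · have h1 := h S hS hne hSW
    have h2 : ((darts G W).filter (fun p => p.1 ∈ S ∧ p.2 ∈ W ∧ p.2 ∉ S)).card ≤
        ((darts G W).filter (fun p => p.1 ∈ S ∧ p.2 ∉ S)).card := by
      apply Finset.card_le_card
      intro p hp
      rw [mem_filter] at hp ⊢
      exact ⟨hp.1, hp.2.1, hp.2.2.2⟩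
    omega

theorem grow_of_cut2 (W : Finset V) (hne : W.Nonempty) (h : Cut2 G W) : Grow G W := by
  apply grow_of_cut G W hne
  intro S hS hSne hSW
  have h1 := h S hS hSne hSW
  have h2 : ((darts G W).filter (fun p => p.1 ∈ S ∧ p.2 ∈ W ∧ p.2 ∉ S)).Nonempty := by
    rw [← Finset.card_pos]; omega
  obtain ⟨p, hp⟩ := h2
  rw [mem_filter, mem_darts] at hp
  exact ⟨p.1, hp.2.1, p.2, hp.2.2.1, hp.2.2.2, hp.1.2⟩

/-- Block lemma for odd degrees other than five. -/
theorem block_gen (r : ℕ) (hG : G.IsRegularOfDegree r) (hodd : Odd r) (h3 : 3 ≤ r) (h5 : r ≠ 5)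
    (W : Finset V) (hcut : Cut2 G W) : OK G W := by
  obtain ⟨t, ht⟩ := hodd
  set k : ℕ := 2 * (r / 4 + 1) with hk
  set i : ℕ := r - 3 * (r / 4 + 1) with hi
  have hr4 := Nat.div_add_mod r 4
  have hr4' := Nat.mod_lt r (show 0 < 4 by norm_num)
  have hk3 : 3 * k ≤ 2 * r := by omega
  have hkr : r < 2 * k := by omega
  have hklt : k < r := by omega
  have hkeven : Even k := ⟨r / 4 + 1, by omega⟩
  have hkj : 3 * k + 2 * i = 2 * r := by omega
  have hik : 2 * i < k := by omega
  have hstr := str_darts G r hG W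
  have hstar := star_of_cut2 G W hcut
  set A := darts G W with hA
  set lam := (A.filter (fun p => p.2 ∉ W)).card with hlam
  -- part b
  have hb : ∀ v0 ∈ W, ∀ u0, u0 ∉ W → G.Adj v0 u0 → ∀ m : ℤ, (m = 2 ∨ m = 4) →
      ∃ f, Valid G W f ∧ f v0 u0 = m := by
    intro v0 hv0 u0 hu0 hadj m hm
    have hd : (v0, u0) ∈ A := (mem_darts G W _).2 ⟨hv0, hadj⟩
    have hdl : (v0, u0) ∈ A.filter (fun p => p.2 ∉ W) := mem_filter.2 ⟨hd, hu0⟩
    have hlam1 : 1 ≤ lam := Finset.card_pos.2 ⟨_, hdl⟩
    rcases Nat.lt_or_ge lam 2 with hl | hl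
    · -- exactly one leaving dart
      have hl1 : lam = 1 := by omega
      obtain ⟨X, hXA, hX, hXl, _⟩ := factor_pairs W A r k (r - k) hstr hkeven (by omega)
        (by omega) (by omega) hstar ∅ ∅ (by intro p hp; exact absurd hp (notMem_empty p))
        (Finset.Subset.refl _)
        (by
          have h1 : A.filter (fun p => p.2 ∉ W ∧ p ∉ (∅ : Finset (V × V))) =
              A.filter (fun p => p.2 ∉ W) := by
            ext p; simp
          rw [h1, ← hlam, hl1]
          simp
          omega)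
      have hXin : ∀ p ∈ X, p.2 ∈ W := by
        intro p hp
        by_contra h
        exact absurd (hXl p hp h) (notMem_empty p)
      obtain ⟨X2, hX2X, hX2⟩ := even_extract W i k X hX hkeven (by omega)
      have hdX : (v0, u0) ∉ X := fun h => hu0 (hXin _ h)
      have hdX2 : (v0, u0) ∉ X2 := fun h => hdX (hX2X h)
      rcases hm with rfl | rfl
      · refine ⟨_, lab G r k (2 * i) hG W X X2 hX hXA hX2 hX2X hkj (-1) (by norm_num)
          (Or.inr hXin), ?_⟩
        simp only [hdX, hdX2, if_false]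
        norm_num
      · refine ⟨_, lab G r k (2 * i) hG W X X2 hX hXA hX2 hX2X hkj (-2) (by norm_num)
          (Or.inr hXin), ?_⟩
        simp only [hdX, hdX2, if_false]
        norm_num
    · -- at least two leaving darts
      have hl1 : lam ≠ 1 := by omega
      rcases hm with rfl | rfl
      · -- value 2: root chosen
        obtain ⟨X, hXA, hX, _, hDX⟩ := factor_pairs W A r k (r - k) hstr hkeven (by omega)
          (by omega) (by omega) hstar (A.filter (fun p => p.2 ∉ W)) {(v0, u0)}
          (by intro p hp; rw [mem_filter] at hp; exact hp)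
          (by intro p hp; rw [mem_singleton] at hp; rw [hp]; exact hdl)
          (by
            have h1 : A.filter (fun p => p.2 ∉ W ∧ p ∉ A.filter (fun p => p.2 ∉ W)) = ∅ := by
              ext p
              simp only [mem_filter, notMem_empty, iff_false]
              tauto
            rw [h1, ← hlam, if_neg hl1]
            simp only [card_empty, Nat.mul_zero, Nat.zero_add, card_singleton]
            split_ifs <;> omega)
        have hdX : (v0, u0) ∈ X := hDX (mem_singleton_self _)
        obtain ⟨X2, hX2X, hX2, hdX2⟩ := even_extract_avoid W i k X hX hkeven hik (v0, u0) hdX hu0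
        refine ⟨_, lab G r k (2 * i) hG W X X2 hX hXA hX2 hX2X hkj 2 (by norm_num)
          (Or.inl (by decide)), ?_⟩
        simp only [hdX, hdX2, if_false, if_true]
        norm_num
      · -- value 4: root unchosen
        have hHne : ((A.filter (fun p => p.2 ∉ W)).erase (v0, u0)).card = lam - 1 := by
          rw [card_erase_of_mem hdl]
        obtain ⟨X, hXA, hX, hXl, _⟩ := factor_pairs W A r k (r - k) hstr hkeven (by omega)
          (by omega) (by omega) hstar ((A.filter (fun p => p.2 ∉ W)).erase (v0, u0)) ∅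
          (by intro p hp; exact mem_filter.1 (mem_of_mem_erase hp))
          (Finset.empty_subset _)
          (by
            have h1 : A.filter (fun p => p.2 ∉ W ∧
                p ∉ (A.filter (fun p => p.2 ∉ W)).erase (v0, u0)) = {(v0, u0)} := by
              ext p
              simp only [mem_filter, mem_erase, mem_singleton]
              constructor
              · rintro ⟨h1, h2, h4⟩
                by_contra h6
                exact h4 ⟨h6, h1, h2⟩
              · rintro rfl
                exact ⟨hd, hu0, fun h => h.1 rfl⟩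
            rw [h1, ← hlam, if_neg hl1]
            simp only [card_empty, Nat.mul_zero, card_singleton]
            split_ifs <;> omega)
        have hdX : (v0, u0) ∉ X := by
          intro h
          exact (mem_erase.1 (hXl _ h hu0)).1 rfl
        obtain ⟨X2, hX2X, hX2⟩ := even_extract W i k X hX hkeven (by omega)
        have hdX2 : (v0, u0) ∉ X2 := fun h => hdX (hX2X h)
        refine ⟨_, lab G r k (2 * i) hG W X X2 hX hXA hX2 hX2X hkj (-2) (by norm_num)
          (Or.inl (by decide)), ?_⟩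
        simp only [hdX, hdX2, if_false]
        norm_num
  refine ⟨?_, hb⟩
  rcases Nat.eq_zero_or_pos lam with h0 | h0
  · obtain ⟨X, hXA, hX, hXl, _⟩ := factor_pairs W A r k (r - k) hstr hkeven (by omega)
      (by omega) (by omega) hstar ∅ ∅ (by intro p hp; exact absurd hp (notMem_empty p))
      (Finset.Subset.refl _)
      (by
        have h1 : A.filter (fun p => p.2 ∉ W ∧ p ∉ (∅ : Finset (V × V))) =
            A.filter (fun p => p.2 ∉ W) := by
          ext p; simp
        rw [h1, ← hlam, h0]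
        simp
        omega)
    have hXin : ∀ p ∈ X, p.2 ∈ W := by
      intro p hp
      by_contra h
      exact absurd (hXl p hp h) (notMem_empty p)
    obtain ⟨X2, hX2X, hX2⟩ := even_extract W i k X hX hkeven (by omega)
    exact ⟨_, lab G r k (2 * i) hG W X X2 hX hXA hX2 hX2X hkj 1 (by norm_num) (Or.inr hXin)⟩
  · obtain ⟨p, hp⟩ := Finset.card_pos.1 h0
    rw [mem_filter, mem_darts] at hp
    obtain ⟨f, hf, _⟩ := hb p.1 hp.1.1 p.2 hp.2 hp.1.2 2 (Or.inl rfl)
    exact ⟨f, hf⟩

end

end Pool.Agent.Helper777.ZFlow
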