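import Mathlib
import Pool.Agent.Helper777.ZBlock

set_option autoImplicit false

namespace Pool.Agent.Helper777.ZFlow

open Finset

section
variable {V : Type*} [Fintype V] [DecidableEq V] (G : SimpleGraph V) [DecidableRel G.Adj]

/-- Labelling 3 on a two-factor and -2 elsewhere. -/
theorem lab5 (hG : G.IsRegularOfDegree 5) (W : Finset V) (X : Finset (V × V))
    (hX : Str W X 2) (hXd : X ⊆ darts G W) (hXin : ∀ p ∈ X, p.2 ∈ W) :
    Valid G W (fun v u => 5 * (if (v, u) ∈ X then (1 : ℤ) else 0) - 2) := by
  refine ⟨?_, ?_, ?_, ?_⟩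
  · intro v hv u huv
    by_cases h : (v, u) ∈ X
    · simp only [h, if_true]; norm_num
    · simp only [h, if_false]; norm_num
  · intro v hv u hu huv
    have e1 : (v, u) ∈ X ↔ (u, v) ∈ X :=
      ⟨fun h => hX.sym _ h hu, fun h => hX.sym _ h hv⟩
    simp only [e1]
  · intro v hv u hu huv
    have h1 : (v, u) ∉ X := fun h' => hu (hXin _ h')
    simp only [h1, if_false]
    decide
  · intro v hv
    rw [Finset.sum_sub_distrib, ← Finset.mul_sum, sum_ind G W X 2 hX hXd v hv, Finset.sum_const,
      SimpleGraph.card_neighborFinset_eq_degree, hG v]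
    norm_num

/-- Labelling with signed corrections. -/
theorem lab5y (hG : G.IsRegularOfDegree 5) (W : Finset V) (X : Finset (V × V))
    (hX : Str W X 2) (hXd : X ⊆ darts G W) (y : V → V → ℤ) (ε : ℤ) (hε : |ε| = 1)
    (h1 : ∀ v ∈ W, ∀ u ∈ W, G.Adj v u → y v u = y u v ∧ |y v u| ≤ 1)
    (h2 : ∀ v ∈ W, ∀ u, u ∉ W → G.Adj v u →
        ((v, u) ∈ X.filter (fun p => p.2 ∉ W) → |y v u| = 1) ∧
        ((v, u) ∉ X.filter (fun p => p.2 ∉ W) → y v u = 0))
    (h3 : ∀ v ∈ W, ∑ u ∈ G.neighborFinset v, y v u = 0) :
    Valid G W (fun v u => 5 * (if (v, u) ∈ X then (1 : ℤ) else 0) - 2 + ε * y v u) := by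
  have hεy : ∀ z : ℤ, |z| ≤ 1 → -1 ≤ ε * z ∧ ε * z ≤ 1 := by
    intro z hz
    have : |ε * z| ≤ 1 := by rw [abs_mul, hε, one_mul]; exact hz
    exact abs_le.1 this
  refine ⟨?_, ?_, ?_, ?_⟩
  · intro v hv u huv
    have hy : |y v u| ≤ 1 := by
      by_cases hu : u ∈ W
      · exact (h1 v hv u hu huv).2
      · by_cases hX' : (v, u) ∈ X.filter (fun p => p.2 ∉ W)
        · exact le_of_eq ((h2 v hv u hu huv).1 hX')
        · rw [(h2 v hv u hu huv).2 hX']; norm_num
    obtain ⟨ha, hb⟩ := hεy _ hy
    by_cases h : (v, u) ∈ X
    · simp only [h, if_true]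
      refine ⟨by omega, ?_⟩
      rw [abs_lt]; constructor <;> omega
    · simp only [h, if_false]
      refine ⟨by omega, ?_⟩
      rw [abs_lt]; constructor <;> omega
  · intro v hv u hu huv
    have e1 : (v, u) ∈ X ↔ (u, v) ∈ X :=
      ⟨fun h => hX.sym _ h hu, fun h => hX.sym _ h hv⟩
    simp only [e1, (h1 v hv u hu huv).1]
  · intro v hv u hu huv
    by_cases h : (v, u) ∈ X
    · have hm : (v, u) ∈ X.filter (fun p => p.2 ∉ W) := mem_filter.2 ⟨h, hu⟩
      have hy := (h2 v hv u hu huv).1 hm
      have hz : |ε * y v u| = 1 := by rw [abs_mul, hε, hy]; norm_num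
      simp only [h, if_true]
      rcases (abs_eq (by norm_num : (0 : ℤ) ≤ 1)).1 hz with h' | h' <;> rw [h'] <;> decide
    · have hm : (v, u) ∉ X.filter (fun p => p.2 ∉ W) := fun h' => h (mem_filter.1 h').1
      have h0 := (h2 v hv u hu huv).2 hm
      simp only [h, if_false, h0, mul_zero]
      decide
  · intro v hv
    rw [Finset.sum_add_distrib, Finset.sum_sub_distrib, ← Finset.mul_sum, ← Finset.mul_sum,
      sum_ind G W X 2 hX hXd v hv, Finset.sum_const, h3 v hv,
      SimpleGraph.card_neighborFinset_eq_degree, hG v]
    norm_num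

/-- Block lemma for degree five. -/
theorem block_five (hG : G.IsRegularOfDegree 5) (W : Finset V) (hcut : Cut2 G W) : OK G W := by
  have hstr := str_darts G 5 hG W
  have hstar := star_of_cut2 G W hcut
  set A := darts G W with hA
  set lam := (A.filter (fun p => p.2 ∉ W)).card with hlam
  have hb : ∀ v0 ∈ W, ∀ u0, u0 ∉ W → G.Adj v0 u0 → ∀ m : ℤ, (m = 2 ∨ m = 4) →
      ∃ f, Valid G W f ∧ f v0 u0 = m := by
    intro v0 hv0 u0 hu0 hadj m hm
    have hd : (v0, u0) ∈ A := (mem_darts G W _).2 ⟨hv0, hadj⟩
    have hdl : (v0, u0) ∈ A.filter (fun p => p.2 ∉ W) := mem_filter.2 ⟨hd, hu0⟩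
    have hlam1 : 1 ≤ lam := Finset.card_pos.2 ⟨_, hdl⟩
    rcases Nat.lt_or_ge lam 2 with hl | hl
    · -- exactly one leaving dart
      have hl1 : lam = 1 := by omega
      have honly : ∀ p ∈ A, p.2 ∉ W → p = (v0, u0) := by
        intro p hp hpW
        obtain ⟨q, hq⟩ := Finset.card_eq_one.1 (hlam ▸ hl1)
        have h1 : p ∈ A.filter (fun p => p.2 ∉ W) := mem_filter.2 ⟨hp, hpW⟩
        rw [hq, mem_singleton] at h1 hdl
        rw [h1, hdl]
      obtain ⟨X, hXA, hX, hXl, _⟩ := factor_pairs W A 5 2 3 hstr (by decide) (by omega)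
        (by omega) (by omega) hstar ∅ ∅ (by intro p hp; exact absurd hp (notMem_empty p))
        (Finset.Subset.refl _)
        (by
          have h1 : A.filter (fun p => p.2 ∉ W ∧ p ∉ (∅ : Finset (V × V))) =
              A.filter (fun p => p.2 ∉ W) := by
            ext p; simp
          rw [h1, ← hlam, hl1]
          simp)
      have hXin : ∀ p ∈ X, p.2 ∈ W := by
        intro p hp
        by_contra h
        exact absurd (hXl p hp h) (notMem_empty p)
      have hdX : (v0, u0) ∉ X := fun h => hu0 (hXin _ h)
      rcases hm with rfl | rfl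
      · refine ⟨_, (lab5 G hG W X hX hXA hXin).neg, ?_⟩
        simp only [hdX, if_false]
        norm_num
      · -- second factor, on W minus v0
        set W' : Finset V := W.erase v0 with hW'
        set A' := darts G W' with hA'
        have hstr' := str_darts G 5 hG W'
        have hW'W : W' ⊆ W := Finset.erase_subset _ _
        have hstar' : ∀ S ⊆ W', S ≠ W' →
            (A'.filter (fun p => p.1 ∈ S ∧ p.2 ∉ S)).card ≠ 1 := by
          intro S hS _
          rcases S.eq_empty_or_nonempty with he | hne
          · subst he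
            simp
          · have h1 := hcut S (hS.trans hW'W) hne (by
              rintro rfl
              exact absurd (hS hv0) (by simp [hW']))
            have h2 : ((darts G W).filter (fun p => p.1 ∈ S ∧ p.2 ∈ W ∧ p.2 ∉ S)).card ≤
                (A'.filter (fun p => p.1 ∈ S ∧ p.2 ∉ S)).card := by
              apply Finset.card_le_card
              intro p hp
              rw [mem_filter, mem_darts] at hp ⊢
              exact ⟨⟨hS hp.2.1, hp.1.2⟩, hp.2.1, hp.2.2.2⟩
            omega
        have hleav' : A'.filter (fun p => p.2 ∉ W') =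
            ((A.filter (fun p => p.1 = v0)).erase (v0, u0)).image Prod.swap := by
          ext p
          simp only [mem_filter, mem_image, mem_erase]
          constructor
          · rintro ⟨hp, hpW⟩
            rw [mem_darts] at hp
            have hpW1 : p.1 ∈ W := hW'W hp.1
            have hp2 : p.2 = v0 := by
              by_contra h
              have hpW2 : p.2 ∉ W := fun h' => hpW (mem_erase.2 ⟨h, h'⟩)
              have := honly p ((mem_darts G W p).2 ⟨hpW1, hp.2⟩) hpW2
              rw [this] at hp
              exact (mem_erase.1 hp.1).1 rfl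
            refine ⟨p.swap, ⟨?_, ?_, hp2⟩, by simp⟩
            · intro h
              have : p.1 = u0 := by
                have := congrArg Prod.snd h
                simpa using this
              exact hu0 (this ▸ hpW1)
            · rw [mem_darts]
              exact ⟨by simpa [hp2] using hv0, hp.2.symm⟩
          · rintro ⟨q, ⟨hq1, hq2, hq3⟩, rfl⟩
            rw [mem_darts] at hq2
            have hqW : q.2 ∈ W := by
              by_contra h
              exact hq1 (honly q ((mem_darts G W q).2 hq2) h)
            refine ⟨?_, ?_⟩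
            · rw [mem_darts]
              refine ⟨mem_erase.2 ⟨?_, hqW⟩, hq2.2.symm⟩
              intro h
              have h' : q.2 = v0 := h
              apply hq2.2.ne
              rw [hq3, h']
            · show q.1 ∉ W'
              rw [hq3]
              simp [hW']
        have hcard' : (A'.filter (fun p => p.2 ∉ W')).card = 4 := by
          rw [hleav', Finset.card_image_of_injective _ Prod.swap_injective, card_erase_of_mem,
            hstr.reg v0 hv0]
          rw [mem_filter]
          exact ⟨hd, rfl⟩
        obtain ⟨X2, hXA2, hX2, hXl2, _⟩ := factor_pairs W' A' 5 2 3 hstr' (by decide) (by omega)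
          (by omega) (by omega) hstar' ∅ ∅ (by intro p hp; exact absurd hp (notMem_empty p))
          (Finset.Subset.refl _)
          (by
            have h1 : A'.filter (fun p => p.2 ∉ W' ∧ p ∉ (∅ : Finset (V × V))) =
                A'.filter (fun p => p.2 ∉ W') := by
              ext p; simp
            rw [h1, hcard']
            simp)
        have hXin2 : ∀ p ∈ X2, p.2 ∈ W' := by
          intro p hp
          by_contra h
          exact absurd (hXl2 p hp h) (notMem_empty p)
        have hdX2 : ∀ u, (v0, u) ∉ X2 := by
          intro u h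
          have := hX2.src _ h
          simp [hW'] at this
        refine ⟨fun v u => (2 - 6 * (if (v, u) ∈ X then (1 : ℤ) else 0) +
          (if (v, u) ∈ X2 then (1 : ℤ) else 0)) + (if (v, u) = (v0, u0) then 2 else 0),
          ⟨?_, ?_, ?_, ?_⟩, ?_⟩
        · intro v hv u huv
          by_cases hvu : (v, u) = (v0, u0)
          · have e1 : (v, u) ∉ X := by rw [hvu]; exact hdX
            have e2 : (v, u) ∉ X2 := by rw [hvu]; exact hdX2 u0
            simp only [if_neg e1, if_neg e2, if_pos hvu]
            norm_num
          · simp only [if_neg hvu]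
            by_cases e1 : (v, u) ∈ X <;> by_cases e2 : (v, u) ∈ X2 <;>
              simp only [e1, e2, if_true, if_false] <;> norm_num
        · intro v hv u hu huv
          have e0 : ¬ (v, u) = (v0, u0) := by
            intro h
            exact hu0 ((Prod.mk.inj h).2 ▸ hu)
          have e0' : ¬ (u, v) = (v0, u0) := by
            intro h
            exact hu0 ((Prod.mk.inj h).2 ▸ hv)
          have e1 : (v, u) ∈ X ↔ (u, v) ∈ X :=
            ⟨fun h => hX.sym _ h hu, fun h => hX.sym _ h hv⟩
          have e2 : (v, u) ∈ X2 ↔ (u, v) ∈ X2 :=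
            ⟨fun h => hX2.sym _ h (hXin2 _ h), fun h => hX2.sym _ h (hXin2 _ h)⟩
          simp only [if_neg e0, if_neg e0', e1, e2]
        · intro v hv u hu huv
          have hvu : (v, u) = (v0, u0) := honly _ ((mem_darts G W _).2 ⟨hv, huv⟩) hu
          have e1 : (v, u) ∉ X := by rw [hvu]; exact hdX
          have e2 : (v, u) ∉ X2 := by rw [hvu]; exact hdX2 u0
          simp only [if_neg e1, if_neg e2, if_pos hvu]
          decide
        · intro v hv
          rw [Finset.sum_add_distrib, Finset.sum_add_distrib, Finset.sum_sub_distrib,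
            ← Finset.mul_sum, sum_ind G W X 2 hX hXA v hv, Finset.sum_const,
            SimpleGraph.card_neighborFinset_eq_degree, hG v]
          by_cases hvv : v = v0
          · subst hvv
            have e1 : ∑ u ∈ G.neighborFinset v, (if (v, u) ∈ X2 then (1 : ℤ) else 0) = 0 := by
              apply Finset.sum_eq_zero
              intro u _
              rw [if_neg (hdX2 u)]
            have e2 : ∑ u ∈ G.neighborFinset v, (if (v, u) = (v, u0) then (2 : ℤ) else 0) = 2 := by
              rw [Finset.sum_eq_single u0]
              · simp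
              · intro b _ hb
                rw [if_neg]
                intro h
                exact hb (Prod.mk.inj h).2
              · intro h
                rw [SimpleGraph.mem_neighborFinset] at h
                exact absurd hadj h
            rw [e1, e2]
            norm_num
          · have hvW' : v ∈ W' := mem_erase.2 ⟨hvv, hv⟩
            have e2 : ∑ u ∈ G.neighborFinset v, (if (v, u) = (v0, u0) then (2 : ℤ) else 0) = 0 := by
              apply Finset.sum_eq_zero
              intro u _
              rw [if_neg]
              intro h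
              exact hvv (Prod.mk.inj h).1
            rw [sum_ind G W' X2 2 hX2 hXA2 v hvW', e2]
            norm_num
        · simp only [hdX, hdX2 u0, if_true, if_false]
          norm_num
    · -- at least two leaving darts
      have hl1 : lam ≠ 1 := by omega
      obtain ⟨X, hXA, hX, _, hDX⟩ := factor_pairs W A 5 2 3 hstr (by decide) (by omega)
        (by omega) (by omega) hstar (A.filter (fun p => p.2 ∉ W)) {(v0, u0)}
        (by intro p hp; rw [mem_filter] at hp; exact hp)
        (by intro p hp; rw [mem_singleton] at hp; rw [hp]; exact hdl)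
        (by
          have h1 : A.filter (fun p => p.2 ∉ W ∧ p ∉ A.filter (fun p => p.2 ∉ W)) = ∅ := by
            ext p
            simp only [mem_filter, notMem_empty, iff_false]
            tauto
          rw [h1, ← hlam, if_neg hl1]
          simp only [card_empty, Nat.mul_zero, Nat.zero_add, card_singleton]
          split_ifs <;> omega)
      have hdX : (v0, u0) ∈ X := hDX (mem_singleton_self _)
      have hgrow := grow_of_cut2 G W ⟨v0, hv0⟩ hcut
      have hLeven : Even (X.filter (fun p => p.2 ∉ W)).card := by
        have h1 := parity_leaving W X 2 hX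
        rw [Nat.even_add] at h1
        exact h1.2 ((by decide : Even 2).mul_left _)
      obtain ⟨y, hy1, hy2, hy3⟩ := sign_exists G W hgrow (X.filter (fun p => p.2 ∉ W))
        (by
          intro p hp
          rw [mem_filter] at hp
          have := (mem_darts G W p).1 (hXA hp.1)
          exact ⟨this.1, hp.2, this.2⟩) hLeven
      have hyd : |y v0 u0| = 1 := (hy2 v0 hv0 u0 hu0 hadj).1 (mem_filter.2 ⟨hdX, hu0⟩)
      have hyy : y v0 u0 * y v0 u0 = 1 := by
        rw [← abs_mul_abs_self, hyd]; norm_num
      rcases hm with rfl | rfl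
      · refine ⟨_, lab5y G hG W X hX hXA y (-(y v0 u0)) (by rw [abs_neg]; exact hyd)
          hy1 hy2 hy3, ?_⟩
        simp only [hdX, if_true]
        linarith [hyy]
      · refine ⟨_, lab5y G hG W X hX hXA y (y v0 u0) hyd hy1 hy2 hy3, ?_⟩
        simp only [hdX, if_true]
        linarith [hyy]
  refine ⟨?_, hb⟩
  rcases Nat.eq_zero_or_pos lam with h0 | h0
  · obtain ⟨X, hXA, hX, hXl, _⟩ := factor_pairs W A 5 2 3 hstr (by decide) (by omega)
      (by omega) (by omega) hstar ∅ ∅ (by intro p hp; exact absurd hp (notMem_empty p))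
      (Finset.Subset.refl _)
      (by
        have h1 : A.filter (fun p => p.2 ∉ W ∧ p ∉ (∅ : Finset (V × V))) =
            A.filter (fun p => p.2 ∉ W) := by
          ext p; simp
        rw [h1, ← hlam, h0]
        simp)
    have hXin : ∀ p ∈ X, p.2 ∈ W := by
      intro p hp
      by_contra h
      exact absurd (hXl p hp h) (notMem_empty p)
    exact ⟨_, lab5 G hG W X hX hXA hXin⟩
  · obtain ⟨p, hp⟩ := Finset.card_pos.1 h0
    rw [mem_filter, mem_darts] at hp
    obtain ⟨f, hf, _⟩ := hb p.1 hp.1.1 p.2 hp.2 hp.1.2 2 (Or.inl rfl)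
    exact ⟨f, hf⟩

end

end Pool.Agent.Helper777.ZFlow
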