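import Mathlib
import Pool.Agent.Helper777.ZFive

set_option autoImplicit false

namespace Pool.Agent.Helper777.ZFlow

open Finset

section
variable {V : Type*} [Fintype V] [DecidableEq V] (G : SimpleGraph V) [DecidableRel G.Adj]

theorem merge (S S' W : Finset V) (hd : Disjoint S S') (hu : S ∪ S' = W) (f1 f2 : V → V → ℤ)
    (h1 : Valid G S f1) (h2 : Valid G S' f2)
    (hlink : ∀ v ∈ S, ∀ u ∈ S', G.Adj v u → f1 v u = f2 u v) :
    Valid G W (fun v u => if v ∈ S then f1 v u else f2 v u) := by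
  subst hu
  have hS' : ∀ v ∈ S', v ∉ S := fun v hv h => (Finset.disjoint_left.1 hd) h hv
  refine ⟨?_, ?_, ?_, ?_⟩
  · intro v hv u huv
    rcases mem_union.1 hv with h | h
    · simp only [if_pos h]; exact h1.1 v h u huv
    · simp only [if_neg (hS' v h)]; exact h2.1 v h u huv
  · intro v hv u hu huv
    rcases mem_union.1 hv with h | h <;> rcases mem_union.1 hu with h' | h'
    · simp only [if_pos h, if_pos h']; exact h1.2.1 v h u h' huv
    · simp only [if_pos h, if_neg (hS' u h')]; exact hlink v h u h' huv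
    · simp only [if_neg (hS' v h), if_pos h']; exact (hlink u h' v h huv.symm).symm
    · simp only [if_neg (hS' v h), if_neg (hS' u h')]; exact h2.2.1 v h u h' huv
  · intro v hv u hu huv
    rw [mem_union, not_or] at hu
    rcases mem_union.1 hv with h | h
    · simp only [if_pos h]; exact h1.2.2.1 v h u hu.1 huv
    · simp only [if_neg (hS' v h)]; exact h2.2.2.1 v h u hu.2 huv
  · intro v hv
    rcases mem_union.1 hv with h | h
    · simp only [if_pos h]; exact h1.2.2.2 v h
    · simp only [if_neg (hS' v h)]; exact h2.2.2.2 v h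

theorem attain (W : Finset V) (h : OK G W) (v0 u0 : V) (hv0 : v0 ∈ W) (hu0 : u0 ∉ W)
    (hadj : G.Adj v0 u0) (c : ℤ) (hc : Even c) (hc0 : c ≠ 0) (hc5 : |c| < 5) :
    ∃ f, Valid G W f ∧ f v0 u0 = c := by
  obtain ⟨d, hd⟩ := hc
  rw [abs_lt] at hc5
  have hcases : c = 2 ∨ c = 4 ∨ c = -2 ∨ c = -4 := by omega
  rcases hcases with h' | h' | h' | h'
  · exact h.2 v0 hv0 u0 hu0 hadj c (Or.inl h')
  · exact h.2 v0 hv0 u0 hu0 hadj c (Or.inr h')
  · obtain ⟨f, hf, hf2⟩ := h.2 v0 hv0 u0 hu0 hadj 2 (Or.inl rfl)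
    exact ⟨_, hf.neg, by rw [hf2, h']⟩
  · obtain ⟨f, hf, hf2⟩ := h.2 v0 hv0 u0 hu0 hadj 4 (Or.inr rfl)
    exact ⟨_, hf.neg, by rw [hf2, h']⟩

theorem all_ok (hblock : ∀ W : Finset V, Cut2 G W → OK G W) :
    ∀ (n : ℕ) (W : Finset V), W.card = n → OK G W := by
  intro n
  induction n using Nat.strong_induction_on with
  | _ n ih =>
    intro W hW
    by_cases hcut : Cut2 G W
    · exact hblock W hcut
    unfold Cut2 at hcut
    push Not at hcut
    obtain ⟨S, hSW, hSne, hSneW, hcard⟩ := hcut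
    set S' : Finset V := W \ S with hS'
    have hS'W : S' ⊆ W := Finset.sdiff_subset
    have hd : Disjoint S S' := Finset.disjoint_sdiff
    have hu : S ∪ S' = W := Finset.union_sdiff_of_subset hSW
    have hlt : S.card < n := by
      rw [← hW]
      exact Finset.card_lt_card (Finset.ssubset_iff_subset_ne.2 ⟨hSW, hSneW⟩)
    have hlt' : S'.card < n := by
      rw [hS', Finset.card_sdiff_of_subset hSW, hW]
      have := Finset.card_pos.2 hSne
      omega
    have hok := ih _ hlt S rfl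
    have hok' := ih _ hlt' S' rfl
    set E := (darts G W).filter (fun p => p.1 ∈ S ∧ p.2 ∈ W ∧ p.2 ∉ S) with hE
    have hmemE : ∀ v ∈ S, ∀ u ∈ S', G.Adj v u → (v, u) ∈ E := by
      intro v hv u hu' hvu
      rw [hE, mem_filter, mem_darts]
      rw [hS', mem_sdiff] at hu'
      exact ⟨⟨hSW hv, hvu⟩, hv, hu'.1, hu'.2⟩
    have hSnot : ∀ u, u ∉ W → u ∉ S := fun u h h' => h (hSW h')
    have hS'not : ∀ u, u ∉ W → u ∉ S' := fun u h h' => h (hS'W h')
    have hinS' : ∀ v ∈ S', v ∉ S := fun v hv h => (Finset.disjoint_left.1 hd) h hv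
    rcases Nat.eq_zero_or_pos E.card with h0 | h0
    · -- no connecting edge
      have hno : ∀ v ∈ S, ∀ u ∈ S', ¬ G.Adj v u := by
        intro v hv u hu' hvu
        have := hmemE v hv u hu' hvu
        rw [Finset.card_eq_zero.1 h0] at this
        exact absurd this (notMem_empty _)
      obtain ⟨g1, hg1⟩ := hok.1
      obtain ⟨g2, hg2⟩ := hok'.1
      refine ⟨⟨_, merge G S S' W hd hu g1 g2 hg1 hg2
        (fun v hv u hu' hvu => absurd hvu (hno v hv u hu'))⟩, ?_⟩
      intro v0 hv0 u0 hu0 hadj m hm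
      rw [← hu, mem_union] at hv0
      rcases hv0 with hv0 | hv0
      · obtain ⟨f, hf, hfm⟩ := hok.2 v0 hv0 u0 (hSnot u0 hu0) hadj m hm
        refine ⟨_, merge G S S' W hd hu f g2 hf hg2
          (fun v hv u hu' hvu => absurd hvu (hno v hv u hu')), ?_⟩
        simp only [if_pos hv0]; exact hfm
      · obtain ⟨f, hf, hfm⟩ := hok'.2 v0 hv0 u0 (hS'not u0 hu0) hadj m hm
        refine ⟨_, merge G S S' W hd hu g1 f hg1 hf
          (fun v hv u hu' hvu => absurd hvu (hno v hv u hu')), ?_⟩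
        simp only [if_neg (hinS' v0 hv0)]; exact hfm
    · -- one connecting edge
      have h1 : E.card = 1 := by omega
      obtain ⟨p, hp⟩ := Finset.card_eq_one.1 h1
      have hpE : p ∈ E := by rw [hp]; exact mem_singleton_self p
      rw [hE, mem_filter, mem_darts] at hpE
      obtain ⟨⟨_, hpadj⟩, hp1, hp2W, hp2⟩ := hpE
      have hp2' : p.2 ∈ S' := by rw [hS', mem_sdiff]; exact ⟨hp2W, hp2⟩
      have hp1' : p.1 ∉ S' := fun h => hinS' _ h hp1
      have honly : ∀ v ∈ S, ∀ u ∈ S', G.Adj v u → v = p.1 ∧ u = p.2 := by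
        intro v hv u hu' hvu
        have := hmemE v hv u hu' hvu
        rw [hp, mem_singleton] at this
        rw [← this]; exact ⟨rfl, rfl⟩
      refine ⟨?_, ?_⟩
      · obtain ⟨g1, hg1, hg1c⟩ := hok.2 p.1 hp1 p.2 hp2 hpadj 2 (Or.inl rfl)
        obtain ⟨g2, hg2, hg2c⟩ := hok'.2 p.2 hp2' p.1 hp1' hpadj.symm 2 (Or.inl rfl)
        refine ⟨_, merge G S S' W hd hu g1 g2 hg1 hg2 ?_⟩
        intro v hv u hu' hvu
        obtain ⟨e1, e2⟩ := honly v hv u hu' hvu
        rw [e1, e2, hg1c, hg2c]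
      · intro v0 hv0 u0 hu0 hadj m hm
        rw [← hu, mem_union] at hv0
        rcases hv0 with hv0 | hv0
        · obtain ⟨g1, hg1, hg1m⟩ := hok.2 v0 hv0 u0 (hSnot u0 hu0) hadj m hm
          obtain ⟨g2, hg2, hg2c⟩ := attain G S' hok' p.2 p.1 hp2' hp1' hpadj.symm (g1 p.1 p.2)
            (hg1.2.2.1 p.1 hp1 p.2 hp2 hpadj) (hg1.1 p.1 hp1 p.2 hpadj).1
            (hg1.1 p.1 hp1 p.2 hpadj).2
          refine ⟨_, merge G S S' W hd hu g1 g2 hg1 hg2 ?_, ?_⟩
          · intro v hv u hu' hvu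
            obtain ⟨e1, e2⟩ := honly v hv u hu' hvu
            rw [e1, e2, hg2c]
          · simp only [if_pos hv0]; exact hg1m
        · obtain ⟨g2, hg2, hg2m⟩ := hok'.2 v0 hv0 u0 (hS'not u0 hu0) hadj m hm
          obtain ⟨g1, hg1, hg1c⟩ := attain G S hok p.1 p.2 hp1 hp2 hpadj (g2 p.2 p.1)
            (hg2.2.2.1 p.2 hp2' p.1 hp1' hpadj.symm) (hg2.1 p.2 hp2' p.1 hpadj.symm).1
            (hg2.1 p.2 hp2' p.1 hpadj.symm).2
          refine ⟨_, merge G S S' W hd hu g1 g2 hg1 hg2 ?_, ?_⟩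
          · intro v hv u hu' hvu
            obtain ⟨e1, e2⟩ := honly v hv u hu' hvu
            rw [e1, e2, hg1c]
          · simp only [if_neg (hinS' v0 hv0)]; exact hg2m

/-- Even degrees. -/
theorem even_case (r : ℕ) (hG : G.IsRegularOfDegree r) (heven : Even r) (h4 : 4 ≤ r) :
    ∃ f, Valid G univ f := by
  have hstr := str_darts G r hG univ
  obtain ⟨c, hc⟩ := heven
  -- a pair of disjoint factors X (label 1) and Y (label -2)
  obtain ⟨X, Y, i, j, hX, hY, hXA, hYA, hXY, hij⟩ : ∃ (X Y : Finset (V × V)) (i j : ℕ),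
      Str univ X i ∧ Str univ Y j ∧ X ⊆ darts G univ ∧ Y ⊆ darts G univ ∧ Disjoint X Y ∧
      2 * i = r + j := by
    rcases Nat.even_or_odd c with hcc | hcc
    · obtain ⟨d, hd⟩ := hcc
      obtain ⟨X, hXA, hX⟩ := even_extract univ d r (darts G univ) hstr ⟨c, hc⟩ (by omega)
      obtain ⟨Y, hYA, hY⟩ := even_extract univ 0 r (darts G univ) hstr ⟨c, hc⟩ (by omega)
      have hYe : Y = ∅ := by
        rw [Finset.eq_empty_iff_forall_notMem]
        intro p hp
        have h1 := hY.reg p.1 (mem_univ _)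
        rw [Nat.mul_zero, Finset.card_eq_zero] at h1
        have h2 : p ∈ Y.filter (fun q => q.1 = p.1) := mem_filter.2 ⟨hp, rfl⟩
        rw [h1] at h2
        exact absurd h2 (notMem_empty _)
      exact ⟨X, Y, 2 * d, 2 * 0, hX, hY, hXA, hYA, by rw [hYe]; exact Finset.disjoint_empty_right _,
        by omega⟩
    · obtain ⟨d, hd⟩ := hcc
      obtain ⟨Y, hYA, hY⟩ := even_extract univ 1 r (darts G univ) hstr ⟨c, hc⟩ (by omega)
      obtain ⟨X, hXA, hX⟩ := even_extract univ (d + 1) (r - 2 * 1) (darts G univ \ Y)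
        (hstr.sdiff hY hYA) ⟨c - 1, by omega⟩ (by omega)
      refine ⟨X, Y, 2 * (d + 1), 2 * 1, hX, hY, hXA.trans Finset.sdiff_subset, hYA, ?_, by omega⟩
      rw [Finset.disjoint_left]
      intro p hp
      exact (mem_sdiff.1 (hXA hp)).2
  refine ⟨fun v u => -1 + 2 * (if (v, u) ∈ X then (1 : ℤ) else 0) -
    (if (v, u) ∈ Y then (1 : ℤ) else 0), ?_, ?_, ?_, ?_⟩
  · intro v _ u _
    by_cases h1 : (v, u) ∈ X
    · have h2 : (v, u) ∉ Y := (Finset.disjoint_left.1 hXY) h1
      simp only [h1, h2, if_true, if_false]; norm_num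
    · by_cases h2 : (v, u) ∈ Y
      · simp only [h1, h2, if_true, if_false]; norm_num
      · simp only [h1, h2, if_false]; norm_num
  · intro v hv u hu _
    have e1 : (v, u) ∈ X ↔ (u, v) ∈ X :=
      ⟨fun h => hX.sym _ h hu, fun h => hX.sym _ h hv⟩
    have e2 : (v, u) ∈ Y ↔ (u, v) ∈ Y :=
      ⟨fun h => hY.sym _ h hu, fun h => hY.sym _ h hv⟩
    simp only [e1, e2]
  · intro v _ u hu _
    exact absurd (mem_univ u) hu
  · intro v hv
    rw [Finset.sum_sub_distrib, Finset.sum_add_distrib, ← Finset.mul_sum,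
      sum_ind G univ X i hX hXA v hv, sum_ind G univ Y j hY hYA v hv, Finset.sum_const,
      SimpleGraph.card_neighborFinset_eq_degree, hG v, nsmul_eq_mul]
    have : (2 * (i : ℤ)) = r + j := by exact_mod_cast hij
    linarith

/-- Zero-sum labellings of regular graphs. -/
theorem main (r : ℕ) (h3 : 3 ≤ r) (hG : G.IsRegularOfDegree r) : ∃ f, Valid G univ f := by
  rcases Nat.even_or_odd r with h | h
  · exact even_case G r hG h (by
      obtain ⟨c, hc⟩ := h
      omega)
  · by_cases h5 : r = 5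
    · subst h5
      exact (all_ok G (fun W hW => block_five G hG W hW) _ univ rfl).1
    · exact (all_ok G (fun W hW => block_gen G r hG h h3 h5 W hW) _ univ rfl).1

theorem main_sym2 (r : ℕ) (h3 : 3 ≤ r) (hG : G.IsRegularOfDegree r) :
    ∃ f : Sym2 V → ℤ, (∀ e ∈ G.edgeSet, f e ≠ 0 ∧ |f e| < 5) ∧
        ∀ v : V, ∑ w ∈ G.neighborFinset v, f s(v, w) = 0 := by
  obtain ⟨f, h1, h2, _, h4⟩ := main G r h3 hG
  refine ⟨Sym2.lift ⟨fun a b => if G.Adj a b then f a b else 0, ?_⟩, ?_, ?_⟩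
  · intro a b
    by_cases hab : G.Adj a b
    · simp only [if_pos hab, if_pos hab.symm]
      exact h2 a (mem_univ _) b (mem_univ _) hab
    · have hba : ¬ G.Adj b a := fun h => hab h.symm
      simp only [if_neg hab, if_neg hba]
  · intro e
    induction e using Sym2.ind with
    | _ a b =>
      intro he
      rw [SimpleGraph.mem_edgeSet] at he
      simp only [Sym2.lift_mk, if_pos he]
      exact h1 a (mem_univ _) b he
  · intro v
    rw [← h4 v (mem_univ _)]
    apply Finset.sum_congr rfl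
    intro w hw
    rw [SimpleGraph.mem_neighborFinset] at hw
    simp only [Sym2.lift_mk, if_pos hw]

end

end Pool.Agent.Helper777.ZFlow
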